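import Pool.Agent.K3h82.OP.Det
import Pool.Agent.K3h82.FQ4.Main5
import Pool.Agent.Y158.GR.Fer
import Pool.Agent.Y158.KL.Case2

/-!
# Numbers which are local `ℓ`-th powers
-/

set_option autoImplicit false
set_option linter.all false

open IsDedekindDomain NumberField WithZero

namespace Pool.Agent.K3h82.OP

open Pool.Agent.K3h82.BT Pool.Agent.K3h82.FQ4
open Pool.Agent.Y158.KL

/-- rational numbers which are squares in `ℚ_2` -/
theorem locPow_two {p : ℕ} (hp : p.Prime) (hp8 : p % 8 = 3 ∨ p % 8 = 5)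
    {S : HeightOneSpectrum (𝓞 ℚ) → Prop}
    (hS : ∀ v, (2 : 𝓞 ℚ) ∉ v.asIdeal → (p : 𝓞 ℚ) ∉ v.asIdeal → S v) : LocPow 2 ℚ_[2] S := by
  intro a ha h1 hz
  obtain ⟨z, hz⟩ := hz
  obtain ⟨d₀, r, hr, hd₀, hd⟩ := sqfree_part hp ha (fun q hq hq2 hqp => by
    haveI : Fact q.Prime := ⟨hq⟩
    obtain ⟨v, hv⟩ := exists_v q
    refine even_padic hv ha (h1 v (hS v ?_ (notMem_v hp (Ne.symm hqp) hv)))
    have h2 := notMem_v Nat.prime_two (Ne.symm hq2) hv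
    exact_mod_cast h2)
  have hr2 : (r : ℚ_[2]) ≠ 0 := by exact_mod_cast hr
  have h3 := sq_int hp hp8 hd₀ (z := z / (r : ℚ_[2])) (by
    have h4 : (a : ℚ_[2]) = z ^ 2 := by
      rw [← hz]
      simp
    rw [div_pow, ← h4, hd]
    push_cast
    rw [mul_div_cancel_right₀ _ (pow_ne_zero 2 hr2)])
  exact ⟨r, by rw [hd, h3]; push_cast; ring⟩

section reg

variable {K : Type} [Field K] [NumberField K] {ℓ : ℕ}
  [hp : Fact ℓ.Prime] [hK : IsCyclotomicExtension {ℓ} ℚ K] {ζ : K} (hζ : IsPrimitiveRoot ζ ℓ)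

include hK hζ

theorem dvd_of_V {D : ℤ} (h : V hζ (D : Kl hζ) < 1) : (ℓ : ℤ) ∣ D := by
  have hℓ1 : 1 < ℓ := hp.out.one_lt
  by_contra hc
  obtain ⟨a, b, hab⟩ := (Prime.coprime_iff_not_dvd (Nat.prime_iff_prime_int.1 hp.out)).2 hc
  have h1 : (1 : Kl hζ) = (a : Kl hζ) * (ℓ : Kl hζ) + (b : Kl hζ) * (D : Kl hζ) := by
    have h2 := congrArg (fun z : ℤ => (z : Kl hζ)) hab
    push_cast at h2
    exact h2.symm
  have h3 : V hζ (1 : Kl hζ) < 1 := by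
    rw [h1]
    refine Valuation.map_add_lt _ ?_ ?_
    · rw [map_mul, V_ell]
      refine lt_of_le_of_lt (mul_le_of_le_one_left zero_le (V_intCast hζ a)) ?_
      rw [← exp_zero, exp_lt_exp]
      omega
    · rw [map_mul]
      exact lt_of_le_of_lt (mul_le_of_le_one_left zero_le (V_intCast hζ b)) h
  rw [map_one] at h3
  exact lt_irrefl _ h3

theorem sq_dvd_of_V {D : ℤ} (h : V hζ (D : Kl hζ) ≤ exp (-(ℓ : ℤ))) : (ℓ : ℤ) ^ 2 ∣ D := by
  have hℓ1 : 1 < ℓ := hp.out.one_lt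
  obtain ⟨D₁, rfl⟩ := dvd_of_V hζ (D := D) (lt_of_le_of_lt h (by
    rw [← exp_zero, exp_lt_exp]
    omega))
  push_cast at h
  rw [map_mul, V_ell] at h
  have h2 : V hζ (D₁ : Kl hζ) < 1 := by
    by_contra hc
    push Not at hc
    have h3 := (mul_le_mul_right hc (exp (-((ℓ - 1 : ℕ) : ℤ)))).trans h
    rw [mul_one, exp_le_exp] at h3
    omega
  obtain ⟨D₂, rfl⟩ := dvd_of_V hζ h2
  exact ⟨D₂, by ring⟩

/-- numbers of `ℚ(ζ_ℓ)` which are local `ℓ`-th powers, for regular `ℓ` -/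
theorem locPow_reg (hcop : (classNumber K).Coprime ℓ)
    (hKL : ∀ (u : (𝓞 K)ˣ) (n : ℤ), (ℓ : 𝓞 K) ∣ (u : 𝓞 K) - n → ∃ η : (𝓞 K)ˣ, u = η ^ ℓ)
    {p : ℕ} (hpp : p.Prime) (hpK : (Ideal.span {(p : 𝓞 K)}).IsPrime)
    (hpl : ¬ (ℓ : ℤ) ^ 2 ∣ (p : ℤ) ^ (ℓ - 1) - 1) (hne : p ≠ ℓ)
    {S : HeightOneSpectrum (𝓞 K) → Prop}
    (hS : ∀ v, (ℓ : 𝓞 K) ∉ v.asIdeal → (p : 𝓞 K) ∉ v.asIdeal → S v) : LocPow ℓ (Kl hζ) S := by
  have hℓ0 : ℓ ≠ 0 := hp.out.ne_zero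
  have hℓ1 : 1 < ℓ := hp.out.one_lt
  intro a ha h1 hz
  obtain ⟨z, hz⟩ := hz
  have hza : z ^ ℓ = cm hζ a := hz.symm
  have hp0 : (p : 𝓞 K) ≠ 0 := by exact_mod_cast hpp.ne_zero
  have hp0K : (p : K) ≠ 0 := by exact_mod_cast hpp.ne_zero
  have hcopZ : IsCoprime (p : ℤ) (ℓ : ℤ) :=
    Nat.isCoprime_iff_coprime.2 ((Nat.coprime_primes hpp hp.out).2 hne)
  have hcm0 : ∀ {b : K}, b ≠ 0 → cm hζ b ≠ 0 := fun hb => (_root_.map_ne_zero _).2 hb
  -- the place `p`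
  obtain ⟨w, hw⟩ : ∃ w : HeightOneSpectrum (𝓞 K), w.asIdeal = Ideal.span {(p : 𝓞 K)} :=
    ⟨⟨_, hpK, by rw [Ne, Ideal.span_singleton_eq_bot]; exact hp0⟩, rfl⟩
  have hwp : w.valuation K (p : K) = exp (-1 : ℤ) := by
    have h3 : (p : K) = algebraMap (𝓞 K) K (p : 𝓞 K) := by rw [map_natCast]
    rw [h3, w.valuation_of_algebraMap]
    exact w.intValuation_singleton hp0 hw
  have hother : ∀ v : HeightOneSpectrum (𝓞 K), v ≠ w → v.valuation K (p : K) = 1 := by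
    intro v hv
    have h3 : (p : K) = algebraMap (𝓞 K) K (p : 𝓞 K) := by rw [map_natCast]
    rw [h3, v.valuation_of_algebraMap, v.intValuation_eq_one_iff]
    intro h4
    apply hv
    have h5 : w.asIdeal ≤ v.asIdeal := by
      rw [hw, Ideal.span_singleton_le_iff_mem]
      exact h4
    exact (HeightOneSpectrum.ext (w.isMaximal.eq_of_le v.isPrime.ne_top h5)).symm
  have hwv : ∀ v : HeightOneSpectrum (𝓞 K), v ≠ w → (p : 𝓞 K) ∉ v.asIdeal := by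
    intro v hv h4
    have h5 := hother v hv
    have h3 : (p : K) = algebraMap (𝓞 K) K (p : 𝓞 K) := by rw [map_natCast]
    rw [h3, v.valuation_of_algebraMap, v.intValuation_eq_one_iff] at h5
    exact h5 h4
  have hlw : lam hζ ≠ w := by
    intro h3
    have h4 : (p : 𝓞 K) ∈ (lam hζ).asIdeal := by
      rw [h3, hw]
      exact Ideal.mem_span_singleton_self _
    have h5 : (ℓ : 𝓞 K) ∈ (lam hζ).asIdeal := by
      by_contra hc
      rw [← HeightOneSpectrum.intValuation_eq_one_iff, lam_ell, ← exp_zero] at hc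
      have := exp_injective hc
      omega
    obtain ⟨r, t, hrt⟩ := hcopZ
    apply (lam hζ).isPrime.ne_top
    rw [Ideal.eq_top_iff_one]
    have h6 : (1 : 𝓞 K) = (r : 𝓞 K) * (p : 𝓞 K) + (t : 𝓞 K) * (ℓ : 𝓞 K) := by
      have := congrArg (fun z : ℤ => (z : 𝓞 K)) hrt
      push_cast at this
      exact this.symm
    rw [h6]
    exact add_mem (Ideal.mul_mem_left _ _ h4) (Ideal.mul_mem_left _ _ h5)
  -- remove the power of `p`
  obtain ⟨c, hc⟩ : ∃ c : ℤ, w.valuation K a = exp (-c) := by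
    obtain ⟨m, hm⟩ := exists_exp ((Valuation.ne_zero_iff _).2 ha : w.valuation K a ≠ 0)
    exact ⟨-m, by rw [neg_neg]; exact hm⟩
  have hpc : (p : K) ^ c ≠ 0 := zpow_ne_zero _ hp0K
  obtain ⟨u, k, hk, hu⟩ := exists_unit_mul_pow (ℓ := ℓ) hp.out.pos hcop (a / (p : K) ^ c)
    (div_ne_zero ha hpc) (by
      intro v
      by_cases hvw : v = w
      · subst hvw
        refine ⟨1, ?_⟩
        rw [map_div₀, hc, map_zpow₀, hwp, ← exp_zsmul, one_pow]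
        have e1 : c • (-1 : ℤ) = -c := by simp
        rw [e1]
        exact div_self exp_ne_zero
      · rw [map_div₀, map_zpow₀, hother v hvw, one_zpow, div_one]
        by_cases hvl : v = lam hζ
        · subst hvl
          exact ⟨V hζ z, by rw [← map_pow, hza, V_cm]⟩
        · exact h1 v (hS v (Pool.Agent.Y158.GR.ell_notMem hζ hvl) (hwv v hvw)))
  -- the local root
  obtain ⟨N, m, hNm⟩ : ∃ (N m : ℕ), c + ℓ * N = m := by
    refine ⟨c.natAbs, (c + ℓ * c.natAbs).toNat, (Int.toNat_of_nonneg ?_).symm⟩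
    have h2 : -(c.natAbs : ℤ) ≤ c := by omega
    have h3 : (c.natAbs : ℤ) ≤ ℓ * c.natAbs := by
      have : (1 : ℤ) ≤ ℓ := by omega
      nlinarith [Int.natCast_nonneg c.natAbs]
    omega
  have hma : (p : K) ^ m * (algebraMap (𝓞 K) K u * k ^ ℓ) = a * ((p : K) ^ N) ^ ℓ := by
    rw [← hu, ← zpow_natCast (p : K) m, ← hNm, zpow_add₀ hp0K, ← pow_mul, mul_comm N ℓ]
    have e1 : (p : K) ^ ((ℓ : ℤ) * N) = (p : K) ^ (ℓ * N) := by
      rw [← zpow_natCast]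
      push_cast
      rfl
    rw [e1]
    field_simp
  obtain ⟨w₂, hw₂⟩ : ∃ w₂ : Kl hζ, w₂ = z * cm hζ ((p : K) ^ N) / cm hζ k := ⟨_, rfl⟩
  have hw₂u : w₂ ^ ℓ = om hζ (u * (p : 𝓞 K) ^ m) := by
    have h2 : om hζ (u * (p : 𝓞 K) ^ m) = cm hζ ((p : K) ^ m * algebraMap (𝓞 K) K u) := by
      change cm hζ (algebraMap (𝓞 K) K (u * (p : 𝓞 K) ^ m)) = _
      rw [map_mul (algebraMap (𝓞 K) K), map_pow (algebraMap (𝓞 K) K), map_natCast, mul_comm]
    have h3 : (p : K) ^ m * algebraMap (𝓞 K) K u = a * ((p : K) ^ N) ^ ℓ / k ^ ℓ := by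
      rw [← hma]
      field_simp
    rw [hw₂, div_pow, mul_pow, hza, h2, h3, map_div₀, map_mul]
    simp only [map_pow]
  have hVp : V hζ ((p : ℤ) : Kl hζ) = 1 := by
    have h2 := V_cm hζ (p : K)
    rw [map_natCast, hother _ hlw] at h2
    push_cast
    exact h2
  have hVw₂ : V hζ w₂ = 1 := by
    have h2 : V hζ w₂ ^ ℓ = 1 := by
      rw [← map_pow, hw₂u, map_mul, map_mul, V_unit, one_mul, map_pow, map_natCast, map_pow]
      push_cast at hVp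
      rw [hVp, one_pow]
    exact (pow_eq_one_iff_of_nonneg zero_le hℓ0).1 h2
  -- the unit
  obtain ⟨n, hn⟩ := pow_near hζ hVw₂.le
  have hdv : (ℓ : 𝓞 K) ∣ (u : 𝓞 K) * (p : 𝓞 K) ^ m - n := by
    apply ell_dvd_of hζ
    rw [← V_om, map_sub, map_intCast, ← hw₂u]
    exact hn
  obtain ⟨η, hη⟩ : ∃ η : (𝓞 K)ˣ, u = η ^ ℓ := by
    obtain ⟨r, t, hrt⟩ := hcopZ.pow_left (m := m)
    refine hKL u (n * r) ?_
    have h2 : (u : 𝓞 K) - ((n * r : ℤ) : 𝓞 K) = ((u : 𝓞 K) * (p : 𝓞 K) ^ m - n) * (r : 𝓞 K) +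
        (ℓ : 𝓞 K) * ((t : 𝓞 K) * u) := by
      have h3 := congrArg (fun z : ℤ => (z : 𝓞 K)) hrt
      push_cast at h3 ⊢
      linear_combination (-(u : 𝓞 K)) * h3
    rw [h2]
    exact dvd_add (hdv.mul_right _) (Dvd.intro _ rfl)
  have hη0 : om hζ (η : 𝓞 K) ≠ 0 := om_ne hζ η.ne_zero
  obtain ⟨w₃, hw₃⟩ : ∃ w₃ : Kl hζ, w₃ = w₂ / om hζ (η : 𝓞 K) := ⟨_, rfl⟩
  have hw₃p : w₃ ^ ℓ = (((p : ℤ) ^ m : ℤ) : Kl hζ) := by
    rw [hw₃, div_pow, hw₂u, hη]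
    push_cast
    rw [map_mul, map_pow, map_pow, map_natCast, mul_comm, mul_div_assoc,
      div_self (pow_ne_zero _ hη0), mul_one]
  have hVw₃ : V hζ w₃ = 1 := by
    have h2 : V hζ w₃ ^ ℓ = 1 := by
      rw [← map_pow, hw₃p, Int.cast_pow, map_pow, hVp, one_pow]
    exact (pow_eq_one_iff_of_nonneg zero_le hℓ0).1 h2
  obtain ⟨n', hn'⟩ := near_rat hζ hVw₃.le
  have hn1 : V hζ (w₃ - n') ≤ 1 := hn'.trans (by rw [← exp_zero, exp_le_exp]; omega)
  have hsq : (ℓ : ℤ) ^ 2 ∣ (p : ℤ) ^ m - n' ^ ℓ := by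
    apply sq_dvd_of_V hζ
    obtain ⟨r, hr1, hr⟩ := add_pow_near hζ (V_intCast hζ n') hn1
    have e1 : (n' : Kl hζ) + (w₃ - n') = w₃ := by ring
    rw [e1, hw₃p] at hr
    have e : (((p : ℤ) ^ m - n' ^ ℓ : ℤ) : Kl hζ) = (w₃ - n') ^ ℓ + ℓ * (n' * (w₃ - n') * r) := by
      push_cast at hr ⊢
      rw [hr]
      ring
    rw [e]
    refine Valuation.map_add_le _ ?_ ?_
    · rw [map_pow]
      refine (pow_le_pow_left₀ zero_le hn' ℓ).trans ?_
      rw [exp_pow, exp_le_exp]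
      linarith
    · rw [map_mul, V_ell, map_mul, map_mul]
      have h2 : V hζ (n' : Kl hζ) * V hζ (w₃ - n') * V hζ r ≤ exp (-1) := by
        have h3 := mul_le_mul' (mul_le_mul' (V_intCast hζ n') hn') hr1
        rw [one_mul, mul_one] at h3
        exact h3
      refine (mul_le_mul' le_rfl h2).trans ?_
      rw [← exp_add, exp_le_exp]
      omega
  -- the exponent
  have hℓm : ℓ ∣ m := by
    haveI : NeZero (ℓ ^ 2) := ⟨pow_ne_zero 2 hℓ0⟩
    have hcoe : ∀ z : ℤ, (ℓ : ℤ) ^ 2 ∣ z ↔ ((z : ℤ) : ZMod (ℓ ^ 2)) = 0 := by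
      intro z
      rw [ZMod.intCast_zmod_eq_zero_iff_dvd]
      push_cast
      rfl
    rw [hcoe] at hsq hpl
    push_cast at hsq hpl
    have hunit : ∀ z : ℕ, Nat.Coprime z ℓ → (z : ZMod (ℓ ^ 2)) ^ (ℓ * (ℓ - 1)) = 1 := by
      intro z hz
      have h2 := ZMod.pow_totient (ZMod.unitOfCoprime z (Nat.Coprime.pow_right 2 hz))
      have h3 := congrArg (Units.val) h2
      rw [Units.val_pow_eq_pow_val, ZMod.coe_unitOfCoprime, Units.val_one,
        Nat.totient_prime_pow hp.out two_pos] at h3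
      norm_num at h3
      exact h3
    have hcopN : Nat.Coprime p ℓ := (Nat.coprime_primes hpp hp.out).2 hne
    have hn'2 : ((n' : ZMod (ℓ ^ 2)) ^ ℓ) ^ (ℓ - 1) = 1 := by
      have h2 : Nat.Coprime n'.natAbs ℓ := by
        rw [Nat.coprime_comm, Nat.Prime.coprime_iff_not_dvd hp.out]
        intro h3
        have h4 : (ℓ : ℤ) ∣ n' := Int.natCast_dvd.2 h3
        have h5 : (ℓ : ℤ) ∣ (p : ℤ) ^ m := by
          have h6 : (ℓ : ℤ) ∣ (p : ℤ) ^ m - n' ^ ℓ := by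
            have h7 : (ℓ : ℤ) ^ 2 ∣ (p : ℤ) ^ m - n' ^ ℓ := by
              rw [hcoe]
              push_cast
              exact hsq
            exact (Dvd.intro_left _ (by ring : (ℓ : ℤ) * ℓ = ℓ ^ 2)).trans h7
          have h8 := dvd_add h6 (h4.trans (dvd_pow_self n' hℓ0))
          rwa [sub_add_cancel] at h8
        have h9 : ¬ (ℓ : ℤ) ∣ (p : ℤ) ^ m := by
          intro h10
          have h11 := (Nat.prime_iff_prime_int.1 hp.out).dvd_of_dvd_pow h10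
          have h12 : ℓ ∣ p := Int.natCast_dvd_natCast.1 h11
          rcases (Nat.dvd_prime hpp).1 h12 with h13 | h13
          · exact hℓ1.ne' h13
          · exact hne h13.symm
        exact h9 h5
      obtain ⟨q, hq⟩ : ∃ q : ℕ, q = n'.natAbs := ⟨_, rfl⟩
      rw [← hq] at h2
      have h3 := hunit q h2
      rw [← pow_mul]
      have h6 : Even (ℓ * (ℓ - 1)) := Nat.even_mul_pred_self ℓ
      rcases Int.natAbs_eq n' with h4 | h4 <;> rw [← hq] at h4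
      · rw [h4, Int.cast_natCast]
        exact h3
      · rw [h4, Int.cast_neg, Int.cast_natCast, h6.neg_pow, h3]
    have hx1 : ((p : ZMod (ℓ ^ 2)) ^ (ℓ - 1)) ^ ℓ = 1 := by
      rw [← pow_mul, mul_comm]
      exact hunit p hcopN
    have hx2 : ((p : ZMod (ℓ ^ 2)) ^ (ℓ - 1)) ^ m = 1 := by
      rw [← pow_mul, mul_comm, pow_mul, sub_eq_zero.1 hsq]
      exact hn'2
    have hx3 : (p : ZMod (ℓ ^ 2)) ^ (ℓ - 1) ≠ 1 := fun h => hpl (by rw [h, sub_self])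
    have h2 := orderOf_eq_prime hx1 hx3
    rw [← h2]
    exact orderOf_dvd_of_pow_eq_one hx2
  obtain ⟨m', rfl⟩ := hℓm
  refine ⟨(p : K) ^ m' * (algebraMap (𝓞 K) K η * k) / (p : K) ^ N, ?_⟩
  have hpN : ((p : K) ^ N) ^ ℓ ≠ 0 := pow_ne_zero _ (pow_ne_zero _ hp0K)
  rw [div_pow, eq_div_iff hpN, ← hma, hη, Units.val_pow_eq_pow_val, map_pow]
  ring

end reg

end Pool.Agent.K3h82.OP
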