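import Pool.Agent.K3h82.BT.Good

/-!
# Branch points in the coordinate `1 / (x - a)`
-/

set_option autoImplicit false
set_option linter.all false

open Polynomial FF Pool.Agent.Y157.PS

namespace Pool.Agent.K3h82.OP

open Pool.Agent.K3h82.BT

section fin

variable {κ : Type} [Field κ]

/-- the number of branch points at infinity of `y ^ ℓ = ∏ (x - e)`, `e ∈ T` -/
def ninf (ℓ n : ℕ) : ℕ := if ℓ ∣ n then 0 else 1

/-- `ℓ * mm ℓ n` is the number of branch points -/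
def mm (ℓ n : ℕ) : ℕ := (n + ninf ℓ n) / ℓ

theorem mul_mm {ℓ n : ℕ} (h : ℓ ∣ n ∨ ℓ ∣ n + 1) : ℓ * mm ℓ n = n + ninf ℓ n := by
  unfold mm ninf
  apply Nat.mul_div_cancel'
  split_ifs with h1
  · rwa [add_zero]
  · exact h.resolve_left h1

open Classical in
/-- the branch points of `y ^ ℓ = ∏ (x - e)` in the coordinate `1 / (x - a)` -/
noncomputable def Bs (ℓ : ℕ) (T : Finset κ) (a : κ) : Finset κ :=
  if ℓ ∣ T.card then shf a T else insert 0 (shf a T)

theorem shf_sub {ℓ : ℕ} {T : Finset κ} {a : κ} : shf a T ⊆ Bs ℓ T a := by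
  classical
  unfold Bs
  split_ifs
  · exact fun _ h => h
  · exact fun _ h => Finset.mem_insert_of_mem h

theorem mem_shf {T : Finset κ} {a b : κ} : b ∈ shf a T ↔ ∃ e ∈ T, b = (e - a)⁻¹ := by
  classical
  unfold shf
  rw [Finset.mem_image]
  constructor
  · rintro ⟨e, he, rfl⟩
    exact ⟨e, he, rfl⟩
  · rintro ⟨e, he, rfl⟩
    exact ⟨e, he, rfl⟩

theorem mem_Bs {ℓ : ℕ} {T : Finset κ} {a b : κ} (h : b ∈ Bs ℓ T a) :
    (b = 0 ∧ ¬ ℓ ∣ T.card) ∨ ∃ e ∈ T, b = (e - a)⁻¹ := by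
  classical
  unfold Bs at h
  split_ifs at h with h1
  · exact Or.inr (mem_shf.1 h)
  · rcases Finset.mem_insert.1 h with h2 | h2
    · exact Or.inl ⟨h2, h1⟩
    · exact Or.inr (mem_shf.1 h2)

theorem zero_mem_Bs {ℓ : ℕ} {T : Finset κ} {a : κ} (h : ¬ ℓ ∣ T.card) : (0 : κ) ∈ Bs ℓ T a := by
  classical
  unfold Bs
  rw [if_neg h]
  exact Finset.mem_insert_self _ _

theorem card_Bs {ℓ : ℕ} {T : Finset κ} {a : κ} (ha : a ∉ T) :
    (Bs ℓ T a).card = T.card + ninf ℓ T.card := by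
  classical
  unfold Bs ninf
  split_ifs
  · rw [card_shf, add_zero]
  · rw [Finset.card_insert_of_notMem (zero_notMem_shf ha), card_shf]

theorem prod_Bs {M : Type} [Field M] [Algebra κ M] {ℓ : ℕ} {T : Finset κ}
    (hT : ℓ ∣ T.card ∨ ℓ ∣ T.card + 1) {a : κ} (ha : a ∉ T) {X : M}
    (hX : X - algebraMap κ M a ≠ 0) :
    ∏ b ∈ Bs ℓ T a, ((X - algebraMap κ M a)⁻¹ - algebraMap κ M b) =
      (∏ e ∈ T, (X - algebraMap κ M e)) * ((X - algebraMap κ M a)⁻¹) ^ (ℓ * mm ℓ T.card) *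
        (∏ e ∈ T, (algebraMap κ M a - algebraMap κ M e))⁻¹ := by
  classical
  rw [mul_mm hT]
  unfold Bs ninf
  split_ifs
  · rw [prod_shf ha hX, add_zero]
  · rw [Finset.prod_insert (zero_notMem_shf ha), prod_shf ha hX, map_zero, pow_succ]
    ring

/-- good reduction -/
theorem good_Bs {ℓ : ℕ} {T : Finset κ} {V : ValuationSubring κ}
    (hT : ∀ e ∈ T, ∀ e' ∈ T, e ≠ e' → IsU V (e - e')) {a : κ}
    (ha : ∀ e ∈ T, IsU V (e - a)) : Good V (Bs ℓ T a) := by
  refine ⟨fun b hb => ?_, fun b hb b' hb' hne => ?_⟩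
  · rcases mem_Bs hb with ⟨rfl, -⟩ | ⟨e, he, rfl⟩
    · exact zero_mem _
    · exact (ha e he).2.2
  · rcases mem_Bs hb with ⟨rfl, -⟩ | ⟨e, he, rfl⟩
    · rcases mem_Bs hb' with ⟨rfl, -⟩ | ⟨e', he', rfl⟩
      · exact absurd rfl hne
      · rw [zero_sub]
        exact isU_neg (isU_inv' (ha e' he'))
    · have hU := ha e he
      rcases mem_Bs hb' with ⟨rfl, -⟩ | ⟨e', he', rfl⟩
      · rw [sub_zero]
        exact isU_inv' hU
      · have hU' := ha e' he'
        have hee : e' ≠ e := by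
          rintro rfl
          exact hne rfl
        have h3 : (e - a)⁻¹ - (e' - a)⁻¹ = (e' - e) * ((e - a)⁻¹ * (e' - a)⁻¹) := by
          have h4 := hU.1
          have h5 := hU'.1
          field_simp
          ring
        rw [h3]
        exact Pool.Agent.Y748.PS.isU_mul (hT e' he' e he hee)
          (Pool.Agent.Y748.PS.isU_mul (isU_inv' hU) (isU_inv' hU'))

/-- the product of the differences is a unit -/
theorem isU_prod {T : Finset κ} {V : ValuationSubring κ} {f : κ → κ}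
    (h : ∀ e ∈ T, IsU V (f e)) : IsU V (∏ e ∈ T, f e) := by
  classical
  induction T using Finset.induction_on with
  | empty => rw [Finset.prod_empty]; exact Pool.Agent.Y748.PS.isU_one
  | insert e T he ih =>
    rw [Finset.prod_insert he]
    exact Pool.Agent.Y748.PS.isU_mul (h e (Finset.mem_insert_self _ _))
      (ih fun e' he' => h e' (Finset.mem_insert_of_mem he'))

/-- powers of a unit integer are units -/
theorem isU_natpow {V : ValuationSubring κ} {ℓ : ℕ} (h : IsU V (ℓ : κ)) (k : ℕ) :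
    IsU V ((ℓ ^ k : ℕ) : κ) := by
  push_cast
  exact Pool.Agent.Y748.PS.isU_pow h k

/-- a root of unity of order a power of `ℓ` which is not congruent to an element of `T` -/
theorem exists_root [IsAlgClosed κ] [CharZero κ] {V : ValuationSubring κ} {ℓ : ℕ}
    (hℓ : 2 ≤ ℓ) (h : IsU V (ℓ : κ)) (T : Finset κ) (hT : ∀ e ∈ T, e ∈ V) :
    ∃ (k : ℕ) (a : κ), a ^ (ℓ ^ k) = 1 ∧ IsU V a ∧ ∀ e ∈ T, IsU V (e - a) := by
  classical
  obtain ⟨k, hk⟩ : ∃ k : ℕ, T.card < ℓ ^ k := ⟨T.card, Nat.lt_pow_self (by omega)⟩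
  have hn0 : 0 < ℓ ^ k := pow_pos (by omega) k
  haveI : NeZero (ℓ ^ k) := ⟨hn0.ne'⟩
  obtain ⟨ζ, hζ⟩ := HasEnoughRootsOfUnity.exists_primitiveRoot κ (ℓ ^ k)
  have hU : ∀ e : κ, e ^ (ℓ ^ k) = 1 → IsU V e := fun e he =>
    Pool.Agent.Y748.PS.isU_of_pow hn0 (by rw [he]; exact Pool.Agent.Y748.PS.isU_one)
  by_contra hcon
  push Not at hcon
  -- every root of unity is congruent to an element of `T`
  have h1 : ∀ a ∈ nthRootsFinset (ℓ ^ k) (1 : κ), ∃ e ∈ T, ¬ IsU V (e - a) := by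
    intro a ha
    rw [mem_nthRootsFinset hn0] at ha
    exact hcon k a ha (hU a ha)
  choose! f hf1 hf2 using h1
  obtain ⟨a, ha, b, hb, hab, hfab⟩ := Finset.exists_ne_map_eq_of_card_lt_of_maps_to
    (s := nthRootsFinset (ℓ ^ k) (1 : κ)) (t := T) (by
      rw [hζ.card_nthRootsFinset]
      exact hk) (f := f) (fun a ha => hf1 a ha)
  have hUa := hU a ((mem_nthRootsFinset hn0 _).1 ha)
  have hUb := hU b ((mem_nthRootsFinset hn0 _).1 hb)
  have h2 : ∀ c ∈ nthRootsFinset (ℓ ^ k) (1 : κ), f c - c ∈ V.nonunits := by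
    intro c hc
    by_contra hno
    refine hf2 c hc (isU_of_not_nonunit (sub_mem (hT _ (hf1 c hc)) ?_) hno)
    exact (hU c ((mem_nthRootsFinset hn0 _).1 hc)).2.1
  have h3 : a - b ∈ V.nonunits := by
    have e1 : a - b = (f b - b) - (f a - a) := by rw [hfab]; ring
    rw [e1]
    exact non_sub (h2 b hb) (h2 a ha)
  have h4 : a / b - 1 = b⁻¹ * (a - b) := by
    have := hUb.1
    field_simp
  have h5 := Pool.Agent.Y748.PS.rou_eq_one (isU_natpow h k) (z := a / b) (by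
    rw [div_pow, (mem_nthRootsFinset hn0 _).1 ha, (mem_nthRootsFinset hn0 _).1 hb, div_one])
    (by rw [h4]; exact Pool.Agent.Y748.PS.nu_mul hUb.2.2 h3)
  exact hab ((div_eq_one_iff_eq hUb.1).1 h5)

end fin

end Pool.Agent.K3h82.OP
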