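import Pool.Agent.K3h82.OP.Ine
import Pool.Agent.K3h82.BT.Rig5

/-!
# A section is determined by its restriction to one decomposition group
-/

set_option autoImplicit false
set_option linter.all false

open Polynomial FF Pool.Agent.Y157.PS IsDedekindDomain NumberField

namespace Pool.Agent.K3h82.OP

open Pool.Agent.K3h82.BT
open Pool.Agent.Y158.GR

/-- the place `v` does not divide `ℓ`, and `d y ^ ℓ = ∏ (x - e)`, `e ∈ B`, has good reduction -/
def GoodAt {K : Type} [Field K] [NumberField K] (ℓ : ℕ) (B : Finset K) (d : K)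
    (v : HeightOneSpectrum (𝓞 K)) : Prop :=
  (ℓ : 𝓞 K) ∉ v.asIdeal ∧ (∃ t : WithZero (Multiplicative ℤ), v.valuation K d = t ^ ℓ) ∧
    (∀ e ∈ B, v.valuation K e ≤ 1) ∧
    ∀ e ∈ B, ∀ e' ∈ B, e ≠ e' → v.valuation K (e - e') = 1

/-- an element of `K` which is an `ℓ`-th power in `L` and has a valuation divisible by `ℓ` at the
places in `S` is an `ℓ`-th power in `K` -/
def LocPow {K : Type} [Field K] [NumberField K] (ℓ : ℕ) (L : Type) [Field L] [Algebra K L]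
    (S : HeightOneSpectrum (𝓞 K) → Prop) : Prop :=
  ∀ a : K, a ≠ 0 → (∀ v, S v → ∃ t : WithZero (Multiplicative ℤ), v.valuation K a = t ^ ℓ) →
    (∃ z : L, algebraMap K L a = z ^ ℓ) → ∃ b : K, a = b ^ ℓ

section glb

variable {K κ : Type} [Field K] [NumberField K] [Field κ] [Algebra K κ] [IsAlgClosure K κ]

/-- **characters of order `ℓ` with local conditions are trivial** -/
theorem glbL {ℓ : ℕ} [hp : Fact ℓ.Prime] {ζ : K} (hζ : IsPrimitiveRoot ζ ℓ)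
    {Lv C : Type} [Field Lv] [Field C] [Algebra K Lv] [Algebra Lv C] [Algebra K C]
    [IsScalarTower K Lv C] [CharZero Lv] [IsAlgClosure Lv C]
    {S : HeightOneSpectrum (𝓞 K) → Prop} (hS : ∀ v, S v → (ℓ : 𝓞 K) ∉ v.asIdeal)
    (hinj : LocPow ℓ Lv S)
    (ι : κ →ₐ[K] C) (χ : (κ ≃ₐ[K] κ) → κ) (hχ1 : ∀ σ, χ σ ^ ℓ = 1)
    (hχ2 : ∀ σ τ, χ (σ * τ) = χ σ * χ τ)
    (hχ3 : ∃ E : IntermediateField K κ, FiniteDimensional K E ∧ ∀ σ ∈ E.fixingSubgroup, χ σ = 1)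
    (hI : ∀ v : HeightOneSpectrum (𝓞 K), S v →
      ∃ V : ValuationSubring κ, Above v V ∧ ∀ σ, Ine V σ → χ σ = 1)
    (hD : ∀ σ, DecL Lv ι σ → χ σ = 1) : ∀ σ, χ σ = 1 := by
  have hℓ0 : ℓ ≠ 0 := hp.out.ne_zero
  have : Algebra.IsAlgebraic K κ := IsAlgClosure.isAlgebraic
  have : IsAlgClosed κ := IsAlgClosure.isAlgClosed K
  have : Normal K κ := IsAlgClosure.normal K κ
  have : IsGalois K κ := IsGalois.mk
  haveI : NeZero ℓ := ⟨hℓ0⟩
  have hζκ : IsPrimitiveRoot (algebraMap K κ ζ) ℓ := hζ.map_of_injective (algebraMap K κ).injective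
  have hμ : ∀ (σ : κ ≃ₐ[K] κ) (c : κ), c ^ ℓ = 1 → σ c = c := by
    intro σ c hc
    obtain ⟨i, -, hi⟩ := hζκ.eq_pow_of_pow_eq_one hc
    rw [← hi, map_pow, σ.commutes]
  obtain ⟨E, hE, hEχ⟩ := hχ3
  obtain ⟨c, hc, hcχ⟩ := Pool.Agent.Y655.PS.resolvent (⊤ : Subgroup (κ ≃ₐ[K] κ)) χ
    (fun σ _ h => by
      have := hχ1 σ
      rw [h, zero_pow hℓ0] at this
      exact zero_ne_one this)
    (fun σ _ σ' _ => hχ2 σ σ') (fun σ _ σ' _ => hμ σ _ (hχ1 σ')) E (fun σ h _ => hEχ σ h)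
  have hcχ' : ∀ σ, σ c = χ σ * c := fun σ => hcχ σ trivial
  -- the number
  obtain ⟨a, ha⟩ : ∃ a : K, algebraMap K κ a = c ^ ℓ := by
    have h1 : c ^ ℓ ∈ (⊥ : IntermediateField K κ) := by
      rw [InfiniteGalois.mem_bot_iff_fixed]
      intro σ
      rw [map_pow, hcχ', mul_pow, hχ1, one_mul]
    exact IntermediateField.mem_bot.1 h1
  have ha0 : a ≠ 0 := by
    rintro rfl
    rw [map_zero] at ha
    exact pow_ne_zero ℓ hc ha.symm
  -- the local root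
  obtain ⟨w, hw⟩ := locfix (L := Lv) ι (c := c) (fun σ hσ => by
    rw [hcχ', hD σ hσ, one_mul])
  have hwa : algebraMap K Lv a = w ^ ℓ := by
    apply (algebraMap Lv C).injective
    rw [map_pow, hw, ← map_pow, ← ha, ι.commutes, IsScalarTower.algebraMap_apply K Lv C]
  obtain ⟨b, hb⟩ := hinj a ha0 (fun v hv => by
    obtain ⟨V, hV, hVχ⟩ := hI v hv
    obtain ⟨t, ht⟩ := hV.pow (hS v hv) hc
      (fun σ hσ => by rw [hcχ', hVχ σ hσ, one_mul]) ha
    exact ⟨_, ht⟩) ⟨w, hwa⟩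
  have hb0 : b ≠ 0 := by
    rintro rfl
    rw [zero_pow hℓ0] at hb
    exact ha0 hb
  have hbκ : algebraMap K κ b ≠ 0 := (_root_.map_ne_zero _).2 hb0
  have hcK : ∃ b' : K, algebraMap K κ b' = c := by
    have h2 : (c / algebraMap K κ b) ^ ℓ = 1 := by
      rw [div_pow, ← ha, hb, map_pow, div_self (pow_ne_zero _ hbκ)]
    obtain ⟨i, -, hi⟩ := hζκ.eq_pow_of_pow_eq_one h2
    refine ⟨ζ ^ i * b, ?_⟩
    rw [map_mul, map_pow, hi, div_mul_cancel₀ _ hbκ]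
  obtain ⟨b', hb'⟩ := hcK
  intro σ
  have h1 := hcχ' σ
  rw [← hb', σ.commutes, hb'] at h1
  exact (mul_right_cancel₀ hc (by rw [one_mul, ← h1])).symm

end glb

section det

variable {K κ : Type} [Field K] [NumberField K] [Field κ] [Algebra K κ] [IsAlgClosure K κ]
  {R M : Type} [Field R] [Field M] [Algebra κ R] [Algebra R M] [Algebra κ M]
  [IsScalarTower κ R M] {x' : R} {y' : M} {ℓ : ℕ} [hp : Fact ℓ.Prime]

/-- the coordinate `1 / (x - a)` -/
theorem act_mob {s : (κ ≃ₐ[K] κ) →* RingAut M} (hs : Act K κ R M x' s) (a : K) :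
    Act K κ R M (x' - algebraMap κ R (algebraMap K κ a))⁻¹ s := by
  refine ⟨hs.const, fun σ => ?_, hs.cont⟩
  rw [map_inv₀, map_inv₀, map_sub, map_sub, hs.fixx, ← IsScalarTower.algebraMap_apply κ R M,
    hs.const, σ.commutes]

/-- **two sections which agree on one decomposition group are equal** -/
theorem det {ζ : K} (hζ : IsPrimitiveRoot ζ ℓ) {B : Finset K} {T : Finset κ}
    (hBT : ∀ e : κ, e ∈ T ↔ ∃ b ∈ B, algebraMap K κ b = e)
    (hrat : RatF κ x') {d : K} (hd : d ≠ 0)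
    (hC : AllCov ℓ κ R M x' y' T (algebraMap K κ d))
    {Lv C : Type} [Field Lv] [Field C] [Algebra K Lv] [Algebra Lv C] [Algebra K C]
    [IsScalarTower K Lv C] [CharZero Lv] [IsAlgClosure Lv C]
    (hinj : LocPow ℓ Lv (GoodAt ℓ B d)) (ι : κ →ₐ[K] C)
    {s t : (κ ≃ₐ[K] κ) →* RingAut M} (hs : Sec K κ R M x' y' (1 : κ) s)
    (ht : Sec K κ R M x' y' (1 : κ) t) (hD : ∀ σ, DecL Lv ι σ → s σ = t σ) : s = t := by
  classical
  have hk : Algebra.IsAlgebraic K κ := IsAlgClosure.isAlgebraic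
  haveI : IsAlgClosed κ := IsAlgClosure.isAlgClosed K
  haveI : CharZero κ := charZero_of_injective_algebraMap (algebraMap K κ).injective
  haveI : Normal K κ := IsAlgClosure.normal K κ
  have hℓ0 : ℓ ≠ 0 := hp.out.ne_zero
  haveI : NeZero ℓ := ⟨hℓ0⟩
  have hζκ : IsPrimitiveRoot (algebraMap K κ ζ) ℓ := hζ.map_of_injective (algebraMap K κ).injective
  have hμ : ∀ (σ : κ ≃ₐ[K] κ) (c : κ), c ^ ℓ = 1 → σ c = c := by
    intro σ c hc
    obtain ⟨i, -, hi⟩ := hζκ.eq_pow_of_pow_eq_one hc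
    rw [← hi, map_pow, σ.commutes]
  have hTK : ∀ σ : κ ≃ₐ[K] κ, ∀ e ∈ T, σ e = e := by
    intro σ e he
    obtain ⟨b, -, rfl⟩ := (hBT e).1 he
    exact σ.commutes b
  -- a coordinate
  obtain ⟨a, haB⟩ := Infinite.exists_notMem_finset B
  have haT : algebraMap K κ a ∉ T := by
    intro h
    obtain ⟨b, hb, hba⟩ := (hBT _).1 h
    exact haB ((algebraMap K κ).injective hba ▸ hb)
  have hP0 : ∏ e ∈ T, (algebraMap K κ a - e) ≠ 0 := by
    rw [Finset.prod_ne_zero_iff]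
    intro e he
    rw [sub_ne_zero]
    rintro rfl
    exact haT he
  have hdκ : algebraMap K κ d ≠ 0 := (_root_.map_ne_zero _).2 hd
  obtain ⟨δ, hδ'⟩ := IsAlgClosed.exists_pow_nat_eq
    (algebraMap K κ d / (∏ e ∈ T, (algebraMap K κ a - e))) hp.out.pos
  have hδ : δ ^ ℓ * (∏ e ∈ T, (algebraMap K κ a - e)) = algebraMap K κ d := by
    rw [hδ', div_mul_cancel₀ _ hP0]
  have hCov := hC _ δ haT hδ
  refine rigid hk hCov ?_ hμ (act_mob (Act.of_sec hs) a) (act_mob (Act.of_sec ht) a) ?_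
  · intro σ e he
    rcases mem_Bs he with ⟨rfl, -⟩ | ⟨e', he', rfl⟩
    · exact map_zero σ
    · rw [map_inv₀, map_sub, hTK σ e' he', σ.commutes]
  · intro χ hχ1 hχ2 hχ3 hχ4
    refine glbL hζ (S := GoodAt ℓ B d) (fun v hv => hv.1) hinj ι χ hχ1 hχ2 hχ3 (fun v hv => ?_)
      fun σ hσ => hχ4 σ (hD σ hσ)
    obtain ⟨V, hV⟩ := exists_above (K := K) κ v
    refine ⟨V, hV, fun σ hσ => hχ4 σ (ine_eq hrat hd hC hTK hs ht hV hv.1 hv.2.1 ?_ ?_ σ hσ)⟩
    · intro e he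
      obtain ⟨b, hb, rfl⟩ := (hBT _).1 he
      exact (hV b).2 (hv.2.2.1 b hb)
    · intro e he e' he' hne
      obtain ⟨b, hb, rfl⟩ := (hBT _).1 he
      obtain ⟨b', hb', rfl⟩ := (hBT _).1 he'
      rw [← map_sub, hV.isU]
      exact hv.2.2.2 b hb b' hb' fun h => hne (by rw [h])

end det

end Pool.Agent.K3h82.OP
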