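import Pool.Agent.K3h82.OP.Br
import Pool.Agent.K3h82.BT.Glue5

/-!
# The covering field of `d y ^ ℓ = ∏ (x - e)` in all coordinates `1 / (x - a)`
-/

set_option autoImplicit false
set_option linter.all false

open Polynomial FF Pool.Agent.Y157.PS

namespace Pool.Agent.K3h82.OP

open Pool.Agent.K3h82.BT
open Pool.Agent.Y158.FQ (adjoin_pair_top alg_over)

/-- the covering fields in all coordinates -/
def AllCov (ℓ : ℕ) (κ R M : Type) [Field κ] [Field R] [Field M] [Algebra κ R] [Algebra R M]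
    [Algebra κ M] [IsScalarTower κ R M] (x' : R) (y' : M) (T : Finset κ) (d : κ) : Prop :=
  ∀ a δ : κ, a ∉ T → δ ^ ℓ * ∏ e ∈ T, (a - e) = d →
    Cov ℓ κ R M (x' - algebraMap κ R a)⁻¹ (Bs ℓ T a)
      (algebraMap κ M δ * y' * algebraMap R M (x' - algebraMap κ R a)⁻¹ ^ mm ℓ T.card)

section

variable {k F Ω : Type} [Field k] [CharZero k]
    [Field F] [Field Ω] [Algebra k F] [Algebra F Ω] [Algebra k Ω] [IsScalarTower k F Ω]
    [IsAlgClosed Ω] [Algebra.IsAlgebraic F Ω]

/-- the covering field, in all coordinates -/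
theorem glueT {ℓ : ℕ} [hℓ : Fact ℓ.Prime] (T : Finset (algebraicClosure k Ω))
    (hT : ℓ ∣ T.card ∨ ℓ ∣ T.card + 1) (h3 : 3 ≤ T.card + ninf ℓ T.card)
    (x y : F) (hx : Transcendental k x)
    (hF : IntermediateField.adjoin k {x, y} = (⊤ : IntermediateField k F)) {d : k} (hd : d ≠ 0)
    (hxy : algebraMap k Ω d * algebraMap F Ω y ^ ℓ = ∏ e ∈ T, (algebraMap F Ω x - (e : Ω))) :
    ∃ (R M : Type) (_ : Field R) (_ : Field M) (_ : Algebra (algebraicClosure k Ω) R)
      (_ : Algebra R M) (_ : Algebra (algebraicClosure k Ω) M)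
      (_ : IsScalarTower (algebraicClosure k Ω) R M) (x' : R) (y' : M)
      (eqv : M ≃+* geomPro ℓ k F Ω), RatF (algebraicClosure k Ω) x' ∧
      AllCov ℓ (algebraicClosure k Ω) R M x' y' T (algebraMap k (algebraicClosure k Ω) d) ∧
      (∀ c : algebraicClosure k Ω, ((eqv (algebraMap (algebraicClosure k Ω) M c) :
        geomPro ℓ k F Ω) : Ω) = (c : Ω)) ∧
      ((eqv (algebraMap R M x') : geomPro ℓ k F Ω) : Ω) = algebraMap F Ω x ∧
      ((eqv y' : geomPro ℓ k F Ω) : Ω) = algebraMap F Ω y := by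
  classical
  have hℓ0 : ℓ ≠ 0 := hℓ.out.ne_zero
  have hac : IsAlgClosure k (algebraicClosure k Ω) := inferInstance
  have hkb : IsAlgClosed (algebraicClosure k Ω) := hac.1
  have hch : CharZero (algebraicClosure k Ω) :=
    charZero_of_injective_algebraMap (algebraMap k (algebraicClosure k Ω)).injective
  have hX0 : Transcendental k (algebraMap F Ω x) :=
    (transcendental_algebraMap_iff (R := k) (algebraMap F Ω).injective (a := x)).2 hx
  have hrat := ratF_adj (trans_up hX0)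
  have hdκ : algebraMap k (algebraicClosure k Ω) d ≠ 0 := (_root_.map_ne_zero _).2 hd
  obtain ⟨Y0, hY0⟩ : ∃ Y0 : Ω, Y0 = algebraMap F Ω y := ⟨_, rfl⟩
  have h1Y : ((1 : algebraicClosure k Ω) : Ω) * algebraMap F Ω y = Y0 := by
    rw [hY0]
    change 1 * algebraMap F Ω y = _
    rw [one_mul]
  have hdY : algebraMap k Ω d * Y0 ^ ℓ = ∏ e ∈ T, (algebraMap F Ω x - (e : Ω)) := by
    rw [hY0]
    exact hxy
  have hdΩ : algebraMap k Ω d ≠ 0 := (_root_.map_ne_zero _).2 hd
  have hYR : Y0 ^ ℓ ∈ IntermediateField.adjoin (algebraicClosure k Ω) {algebraMap F Ω x} := by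
    have h1 : Y0 ^ ℓ = algebraMap (algebraicClosure k Ω) Ω
        (algebraMap k (algebraicClosure k Ω) d)⁻¹ *
          ∏ e ∈ T, (algebraMap F Ω x - (e : Ω)) := by
      rw [← hdY, map_inv₀, ← IsScalarTower.algebraMap_apply, inv_mul_cancel_left₀ hdΩ]
    rw [h1]
    exact mul_mem (IntermediateField.algebraMap_mem _ _) (prod_mem fun e _ => sub_mem
      (IntermediateField.mem_adjoin_simple_self _ _)
      (IntermediateField.algebraMap_mem _ e))
  have hclR := closure_R hF (1 : algebraicClosure k Ω) one_ne_zero hℓ.out.pos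
    (by rw [h1Y]; exact hYR)
  obtain ⟨M, hM⟩ : ∃ M : IntermediateField
      (IntermediateField.adjoin (algebraicClosure k Ω) {algebraMap F Ω x}) Ω,
      ∀ z, z ∈ M ↔ z ∈ maxPro ℓ (algebraicClosure k Ω) (IntermediateField.adjoin
        (IntermediateField.adjoin (algebraicClosure k Ω) {algebraMap F Ω x}) {Y0}) Ω :=
    ⟨(maxPro ℓ (algebraicClosure k Ω) (IntermediateField.adjoin
        (IntermediateField.adjoin (algebraicClosure k Ω) {algebraMap F Ω x}) {Y0})
        Ω).restrictScalars _, fun z => Iff.rfl⟩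
  have hYM : Y0 ∈ M := by
    rw [hM]
    exact (maxPro ℓ (algebraicClosure k Ω) (IntermediateField.adjoin
      (IntermediateField.adjoin (algebraicClosure k Ω) {algebraMap F Ω x}) {Y0})
      Ω).algebraMap_mem ⟨Y0, IntermediateField.mem_adjoin_simple_self _ _⟩
  have hMN : ∀ z, z ∈ M ↔ z ∈ geomPro ℓ k F Ω := fun z => (hM z).trans (by
    have h1 := maxPro_geom ℓ k hF (1 : algebraicClosure k Ω) one_ne_zero z
    rw [h1Y] at h1
    exact h1)
  let eqv : M ≃+* geomPro ℓ k F Ω :=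
    { toFun := fun w => ⟨w.1, (hMN _).1 w.2⟩
      invFun := fun w => ⟨w.1, (hMN _).2 w.2⟩
      left_inv := fun w => rfl
      right_inv := fun w => rfl
      map_mul' := fun w w' => rfl
      map_add' := fun w w' => rfl }
  refine ⟨_, M, inferInstance, inferInstance, inferInstance, inferInstance, inferInstance,
    inferInstance, _, ⟨Y0, hYM⟩, eqv, hrat, fun a δ ha hδ => ?_, fun c => rfl, rfl, hY0⟩
  obtain ⟨x', hx'⟩ : ∃ x' : IntermediateField.adjoin (algebraicClosure k Ω) {algebraMap F Ω x},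
    x' = ⟨algebraMap F Ω x, IntermediateField.mem_adjoin_simple_self _ _⟩ := ⟨_, rfl⟩
  rw [← hx'] at hrat ⊢
  have hxa : x' - algebraMap (algebraicClosure k Ω) _ a ≠ 0 := by
    intro h0
    apply hrat.trans
    rw [sub_eq_zero.1 h0]
    exact isAlgebraic_algebraMap a
  have hδ0 : δ ≠ 0 := by
    rintro rfl
    rw [zero_pow hℓ0, zero_mul] at hδ
    exact hdκ hδ.symm
  have hx'Ω : algebraMap (IntermediateField.adjoin (algebraicClosure k Ω) {algebraMap F Ω x}) Ω
      x' = algebraMap F Ω x := by rw [hx']; rfl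
  have hxaΩ : algebraMap F Ω x - algebraMap (algebraicClosure k Ω) Ω a ≠ 0 := by
    have h1 := (_root_.map_ne_zero (algebraMap (IntermediateField.adjoin (algebraicClosure k Ω)
      {algebraMap F Ω x}) Ω)).2 hxa
    rwa [map_sub, hx'Ω, ← IsScalarTower.algebraMap_apply] at h1
  have htΩ : algebraMap (IntermediateField.adjoin (algebraicClosure k Ω) {algebraMap F Ω x}) Ω
      (x' - algebraMap (algebraicClosure k Ω) _ a)⁻¹ =
      (algebraMap F Ω x - algebraMap (algebraicClosure k Ω) Ω a)⁻¹ := by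
    rw [map_inv₀, map_sub, hx'Ω, ← IsScalarTower.algebraMap_apply]
  obtain ⟨c, hc⟩ : ∃ c : IntermediateField.adjoin (algebraicClosure k Ω) {algebraMap F Ω x},
      c = algebraMap (algebraicClosure k Ω) _ δ *
        (x' - algebraMap (algebraicClosure k Ω) _ a)⁻¹ ^ mm ℓ T.card := ⟨_, rfl⟩
  have hc0 : c ≠ 0 := by
    rw [hc]
    exact mul_ne_zero ((_root_.map_ne_zero _).2 hδ0) (pow_ne_zero _ (inv_ne_zero hxa))
  have hadj := adjoin_mul (Ω := Ω) (Y := Y0) hc0
  have hA0 : ∏ e ∈ T, (algebraMap (algebraicClosure k Ω) Ω a -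
      algebraMap (algebraicClosure k Ω) Ω e) ≠ 0 := by
    rw [Finset.prod_ne_zero_iff]
    intro e he
    rw [← map_sub, _root_.map_ne_zero, sub_ne_zero]
    rintro rfl
    exact ha he
  have hYt : (algebraMap _ Ω c * Y0) ^ ℓ = ∏ e ∈ Bs ℓ T a, (algebraMap
      (IntermediateField.adjoin (algebraicClosure k Ω) {algebraMap F Ω x}) Ω
      (x' - algebraMap (algebraicClosure k Ω) _ a)⁻¹ - algebraMap (algebraicClosure k Ω) Ω e) := by
    have e1 : ∏ e ∈ T, (algebraMap F Ω x - algebraMap (algebraicClosure k Ω) Ω e) =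
        algebraMap k Ω d * Y0 ^ ℓ := hdY.symm
    rw [htΩ, prod_Bs hT ha hxaΩ, e1, hc, map_mul, map_pow, htΩ,
      ← IsScalarTower.algebraMap_apply]
    have h1 : algebraMap k Ω d = algebraMap (algebraicClosure k Ω) Ω δ ^ ℓ *
        ∏ e ∈ T, (algebraMap (algebraicClosure k Ω) Ω a -
          algebraMap (algebraicClosure k Ω) Ω e) := by
      rw [IsScalarTower.algebraMap_apply k (algebraicClosure k Ω) Ω, ← hδ, map_mul, map_pow,
        map_prod]
      simp only [map_sub]
    rw [h1]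
    generalize ∏ e ∈ T, (algebraMap (algebraicClosure k Ω) Ω a -
          algebraMap (algebraicClosure k Ω) Ω e) = A at hA0 ⊢
    rw [mul_pow, mul_pow, ← pow_mul, mul_comm (mm ℓ T.card) ℓ]
    field_simp
  have hYtM : algebraMap _ Ω c * Y0 ∈ M := mul_mem (M.algebraMap_mem c) hYM
  have hcov := a_cov ℓ (algebraicClosure k Ω) _ Ω _ (ratF_inv hrat a) (Bs ℓ T a)
    (by rw [card_Bs ha, ← mul_mm hT]; exact Dvd.intro _ rfl) (by rw [card_Bs ha]; exact h3)
    (algebraMap _ Ω c * Y0) hYt M (by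
      rw [hadj]
      exact hM) ⟨_, hYtM⟩ rfl
  have e : (⟨_, hYtM⟩ : M) = algebraMap (algebraicClosure k Ω) M δ * ⟨Y0, hYM⟩ *
      algebraMap _ M (x' - algebraMap (algebraicClosure k Ω) _ a)⁻¹ ^ mm ℓ T.card := by
    apply Subtype.ext
    change algebraMap _ Ω c * Y0 =
      (δ : Ω) * Y0 * (algebraMap _ Ω (x' - algebraMap (algebraicClosure k Ω) _ a)⁻¹) ^
        mm ℓ T.card
    rw [hc, map_mul, map_pow, ← IsScalarTower.algebraMap_apply]
    change (δ : Ω) * _ * Y0 = (δ : Ω) * Y0 * _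
    ring
  rw [e] at hcov
  exact hcov

end

end Pool.Agent.K3h82.OP
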