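import Pool.Agent.K3h82.OP.Glue
import Pool.Agent.K3h82.BT.Ine5

/-!
# The inertia groups at the places of good reduction act in the same way under all sections
-/

set_option autoImplicit false
set_option linter.all false

open Polynomial FF Pool.Agent.Y157.PS IsDedekindDomain NumberField

namespace Pool.Agent.K3h82.OP

open Pool.Agent.K3h82.BT
open Pool.Agent.Y158.GR
open Pool.Agent.Y158.FQ (exists_below wgt_of)

variable {K κ : Type} [Field K] [NumberField K] [Field κ] [Algebra K κ] [IsAlgClosure K κ]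

/-- a prime number is a unit outside the places above it -/
theorem ell_unit {ℓ : ℕ} {v : HeightOneSpectrum (𝓞 K)} {V : ValuationSubring κ} (hV : Above v V)
    (hℓ : (ℓ : 𝓞 K) ∉ v.asIdeal) : IsU V (ℓ : κ) := by
  rw [← map_natCast (algebraMap K κ) ℓ, hV.isU, ← map_natCast (algebraMap (𝓞 K) K) ℓ,
    v.valuation_of_algebraMap, v.intValuation_eq_one_iff]
  exact hℓ

/-- inertia elements fix the roots of unity of order prime to the residue characteristic -/
theorem ine_root {V : ValuationSubring κ} {n : ℕ} (hn0 : 0 < n) (hn : IsU V (n : κ)) {a : κ}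
    (ha : a ^ n = 1) {σ : κ ≃ₐ[K] κ} (hσ : Ine V σ) : σ a = a := by
  have hU : IsU V a := Pool.Agent.Y748.PS.isU_of_pow (m := n) hn0
    (by rw [ha]; exact Pool.Agent.Y748.PS.isU_one)
  have h1 := hσ.2 a hU.2.1
  have ha0 := hU.1
  have h3 : σ a / a - 1 = a⁻¹ * (σ a - a) := by field_simp
  have h4 := Pool.Agent.Y748.PS.rou_eq_one hn (z := σ a / a)
    (by rw [div_pow, ← map_pow, ha, map_one, div_one])
    (by rw [h3]; exact Pool.Agent.Y748.PS.nu_mul hU.2.2 h1)
  exact (div_eq_one_iff_eq ha0).1 h4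

/-- the `ℓ`-th root of a number with valuation divisible by `ℓ` is fixed by inertia -/
theorem root_ine {ℓ : ℕ} [hp : Fact ℓ.Prime] {v : HeightOneSpectrum (𝓞 K)}
    {V : ValuationSubring κ} (hV : Above v V)
    (hℓ : (ℓ : 𝓞 K) ∉ v.asIdeal) {d : K} (hd : d ≠ 0)
    (hev : ∃ t : WithZero (Multiplicative ℤ), v.valuation K d = t ^ ℓ) {u δ : κ} (hu : IsU V u)
    (hδ : δ ^ ℓ = algebraMap K κ d * u) {σ : κ ≃ₐ[K] κ} (hσ : Ine V σ) (hσu : σ u = u) :
    σ δ = δ := by
  have hℓ0 : ℓ ≠ 0 := hp.out.ne_zero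
  have hch : CharZero κ := charZero_of_injective_algebraMap (algebraMap K κ).injective
  -- an element of `K` with the right valuation
  obtain ⟨t, ht⟩ := hev
  have ht0 : t ≠ 0 := by
    rintro rfl
    rw [zero_pow hℓ0] at ht
    exact (Valuation.ne_zero_iff _).2 hd ht
  obtain ⟨c, hc⟩ : ∃ c : K, v.valuation K c = t := v.valuation_surjective K t
  have hc0 : c ≠ 0 := by
    rintro rfl
    rw [map_zero] at hc
    exact ht0 hc.symm
  have hcκ : algebraMap K κ c ≠ 0 := (_root_.map_ne_zero _).2 hc0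
  have hdκ : algebraMap K κ d ≠ 0 := (_root_.map_ne_zero _).2 hd
  have hδ0 : δ ≠ 0 := by
    rintro rfl
    rw [zero_pow hℓ0] at hδ
    exact mul_ne_zero hdκ hu.1 hδ.symm
  have hU1 : IsU V (algebraMap K κ (d / c ^ ℓ)) := by
    rw [hV.isU, map_div₀, map_pow, hc, ht, div_self (pow_ne_zero _ ht0)]
  have hU2 : IsU V (δ / algebraMap K κ c) := by
    refine Pool.Agent.Y748.PS.isU_of_pow hp.out.pos ?_
    have : (δ / algebraMap K κ c) ^ ℓ = algebraMap K κ (d / c ^ ℓ) * u := by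
      rw [div_pow, hδ, map_div₀, map_pow]
      ring
    rw [this]
    exact Pool.Agent.Y748.PS.isU_mul hU1 hu
  have hl : IsU V (ℓ : κ) := ell_unit hV hℓ
  have h3 := hσ.2 _ hU2.2.1
  have h4 : (σ δ / δ) ^ ℓ = 1 := by
    rw [div_pow, ← map_pow, hδ, map_mul, hσu, σ.commutes, div_self (mul_ne_zero hdκ hu.1)]
  have h5 : σ (δ / algebraMap K κ c) - δ / algebraMap K κ c =
      (δ / algebraMap K κ c) * (σ δ / δ - 1) := by
    rw [map_div₀, σ.commutes]
    field_simp
  rw [h5] at h3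
  have h6 := Pool.Agent.Y748.PS.rou_eq_one hl h4 (non_of_isU_mul hU2 h3)
  exact (div_eq_one_iff_eq hδ0).1 h6

variable {R M : Type} [Field R] [Field M] [Algebra κ R] [Algebra R M] [Algebra κ M]
  [IsScalarTower κ R M] {x' : R} {y' : M} {ℓ : ℕ} [hp : Fact ℓ.Prime] {T : Finset κ}

/-- a section in the coordinate `1 / (x - a)`, over an extension which contains `a` -/
theorem sec_mob {k : Type} [Field k] [Algebra k κ] [IsAlgClosure k κ]
    (hrat : RatF κ x') {s : (κ ≃ₐ[k] κ) →* RingAut M}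
    (hs : Sec k κ R M x' y' (1 : κ) s) {a δ : κ} (hδ0 : δ ≠ 0) (E : IntermediateField k κ)
    (haE : a ∈ E) (m : ℕ) :
    Sec E κ R M (x' - algebraMap κ R a)⁻¹
      (algebraMap κ M δ * y' * algebraMap R M (x' - algebraMap κ R a)⁻¹ ^ m) δ
      (s.comp (AlgEquiv.restrictScalarsHom k)) := by
  have halg : Algebra.IsAlgebraic k κ := IsAlgClosure.isAlgebraic
  let res : (κ ≃ₐ[E] κ) →* (κ ≃ₐ[k] κ) := AlgEquiv.restrictScalarsHom k
  have hres : ∀ τ z, res τ z = τ z := fun τ z => rfl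
  have hfixa : ∀ τ : κ ≃ₐ[E] κ, τ a = a := fun τ => τ.commutes ⟨a, haE⟩
  have hsx : ∀ σ : κ ≃ₐ[k] κ, σ a = a → s σ (algebraMap R M (x' - algebraMap κ R a)⁻¹) =
      algebraMap R M (x' - algebraMap κ R a)⁻¹ := by
    intro σ hσ
    rw [map_inv₀, map_inv₀, map_sub, map_sub, hs.fixx, ← IsScalarTower.algebraMap_apply, hs.const,
      hσ]
  have hsy : ∀ σ : κ ≃ₐ[k] κ, s σ y' = y' := by
    intro σ
    rw [hs.fixy, map_one σ, div_one, map_one, one_mul]
  refine ⟨fun τ b => hs.const _ b, fun τ => hsx _ (hfixa τ), fun τ => ?_, fun z => ?_⟩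
  · change s (res τ) _ = _
    rw [map_mul, map_mul, map_pow, hs.const, hsy, hsx _ (hfixa τ), hres, map_div₀]
    have hδM : algebraMap κ M δ ≠ 0 := (_root_.map_ne_zero _).2 hδ0
    field_simp
  · obtain ⟨E1, hE1, hE1'⟩ := hs.cont z
    let b := Module.finBasis k E1
    let S : Set κ := Set.range fun i => ((b i : E1) : κ)
    haveI : Finite S := Set.finite_range _
    refine ⟨IntermediateField.adjoin E S, ?_, fun τ hτ => ?_⟩
    · exact IntermediateField.finiteDimensional_adjoin (S := S)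
        (fun z _ => (halg.isAlgebraic z).isIntegral.tower_top)
    · change s (res τ) z = z
      refine hE1' _ ?_
      rw [IntermediateField.mem_fixingSubgroup_iff] at hτ ⊢
      intro y hy
      rw [hres]
      have h1 : y = ∑ i, (b.repr ⟨y, hy⟩ i) • ((b i : E1) : κ) := by
        have h2 := b.sum_repr ⟨y, hy⟩
        have h3 := congrArg (fun w : E1 => (w : κ)) h2
        simp only [AddSubmonoidClass.coe_finset_sum] at h3
        exact h3.symm
      rw [h1, map_sum]
      refine Finset.sum_congr rfl fun i _ => ?_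
      rw [Algebra.smul_def, map_mul, hτ _ (IntermediateField.subset_adjoin E S ⟨i, rfl⟩)]
      congr 1
      rw [IsScalarTower.algebraMap_apply k E κ]
      exact τ.commutes _

/-- **the inertia groups at the places of good reduction act in the same way** -/
theorem ine_eq (hrat : RatF κ x') {d : K} (hd : d ≠ 0)
    (hC : AllCov ℓ κ R M x' y' T (algebraMap K κ d))
    (hTK : ∀ σ : κ ≃ₐ[K] κ, ∀ e ∈ T, σ e = e)
    {s t : (κ ≃ₐ[K] κ) →* RingAut M} (hs : Sec K κ R M x' y' (1 : κ) s)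
    (ht : Sec K κ R M x' y' (1 : κ) t)
    {v : HeightOneSpectrum (𝓞 K)} {V : ValuationSubring κ} (hV : Above v V)
    (hℓ : (ℓ : 𝓞 K) ∉ v.asIdeal)
    (hev : ∃ t : WithZero (Multiplicative ℤ), v.valuation K d = t ^ ℓ)
    (hTV : ∀ e ∈ T, e ∈ V) (hTU : ∀ e ∈ T, ∀ e' ∈ T, e ≠ e' → IsU V (e - e')) :
    ∀ σ : κ ≃ₐ[K] κ, Ine V σ → s σ = t σ := by
  classical
  have halg : Algebra.IsAlgebraic K κ := IsAlgClosure.isAlgebraic
  haveI : IsAlgClosed κ := IsAlgClosure.isAlgClosed K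
  haveI : CharZero κ := charZero_of_injective_algebraMap (algebraMap K κ).injective
  haveI : Normal K κ := IsAlgClosure.normal K κ
  have hℓ0 : ℓ ≠ 0 := hp.out.ne_zero
  have hℓV := ell_unit hV hℓ
  obtain ⟨k, a, ha, haU, haT⟩ := exists_root hp.out.two_le hℓV T hTV
  have hσa : ∀ σ : κ ≃ₐ[K] κ, Ine V σ → σ a = a := fun σ hσ =>
    ine_root (pow_pos hp.out.pos k) (isU_natpow hℓV k) ha hσ
  have haT' : a ∉ T := by
    intro h
    have h1 := (haT a h).1
    rw [sub_self] at h1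
    exact h1 rfl
  have haT2 : ∀ e ∈ T, IsU V (a - e) := by
    intro e he
    have h1 : a - e = -(e - a) := by ring
    rw [h1]
    exact isU_neg (haT e he)
  have hPU : IsU V (∏ e ∈ T, (a - e)) := isU_prod haT2
  have hP0 := hPU.1
  have hdκ : algebraMap K κ d ≠ 0 := (_root_.map_ne_zero _).2 hd
  obtain ⟨δ, hδ'⟩ := IsAlgClosed.exists_pow_nat_eq (algebraMap K κ d / (∏ e ∈ T, (a - e)))
    hp.out.pos
  have hδ : δ ^ ℓ * (∏ e ∈ T, (a - e)) = algebraMap K κ d := by
    rw [hδ', div_mul_cancel₀ _ hP0]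
  have hδ0 : δ ≠ 0 := by
    rintro rfl
    rw [zero_pow hℓ0, zero_mul] at hδ
    exact hdκ hδ.symm
  have hCov := hC a δ haT' hδ
  -- the field `E`
  let E : IntermediateField K κ := IntermediateField.adjoin K {a}
  have haE : a ∈ E := IntermediateField.mem_adjoin_simple_self K a
  haveI hEfin : FiniteDimensional K E :=
    IntermediateField.adjoin.finiteDimensional (halg.isAlgebraic a).isIntegral
  haveI : NumberField E := NumberField.of_module_finite K E
  haveI : IsAlgClosure E κ := ⟨inferInstance, Algebra.IsAlgebraic.tower_top (K := K) E⟩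
  obtain ⟨q, hqv, hq0⟩ : ∃ q : 𝓞 K, q ∈ v.asIdeal ∧ q ≠ 0 := by
    obtain ⟨q, hq, hq0⟩ := Submodule.exists_mem_ne_zero_of_ne_bot v.ne_bot
    exact ⟨q, hq, hq0⟩
  obtain ⟨v', hv'⟩ := exists_below (E := E) V (algebraMap (𝓞 K) (𝓞 E) q) (by
    intro h
    apply hq0
    have h1 : algebraMap (𝓞 E) E (algebraMap (𝓞 K) (𝓞 E) q) = 0 := by rw [h, map_zero]
    rw [← IsScalarTower.algebraMap_apply (𝓞 K) (𝓞 E) E,
      IsScalarTower.algebraMap_apply (𝓞 K) K E] at h1
    have h2 := (map_eq_zero _).1 h1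
    exact (map_eq_zero_iff _ (FaithfulSMul.algebraMap_injective (𝓞 K) K)).1 h2) (by
    rw [← IsScalarTower.algebraMap_apply (𝓞 K) (𝓞 E) E,
      IsScalarTower.algebraMap_apply (𝓞 K) K E, ← IsScalarTower.algebraMap_apply K E κ]
    exact hV.ideal q hqv)
  have hℓv : ((ℓ : ℕ) : 𝓞 E) ∉ v'.asIdeal := by
    rw [hv', map_natCast, map_natCast]
    exact fun h => hℓV.not_nonunit h
  obtain ⟨O, hO, hu, hI⟩ := wgt_of (fun b hb => (hv' b).1 hb) hℓv hCov
    (good_Bs hTU haT)
  -- the restricted actions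
  let res : (κ ≃ₐ[E] κ) →* (κ ≃ₐ[K] κ) := AlgEquiv.restrictScalarsHom K
  have hres : ∀ τ z, res τ z = τ z := fun τ z => rfl
  have hfixa : ∀ τ : κ ≃ₐ[E] κ, τ a = a := fun τ => τ.commutes ⟨a, haE⟩
  have hsecs := sec_mob hrat hs hδ0 E haE (mm ℓ T.card)
  have hsect := sec_mob hrat ht hδ0 E haE (mm ℓ T.card)
  have hfixδ : ∀ τ : κ ≃ₐ[E] κ, Ine V τ → τ δ = δ := by
    intro τ hτ
    refine root_ine hV hℓ hd hev (u := (∏ e ∈ T, (a - e))⁻¹) (isU_inv' hPU) (σ := res τ)
      (by rw [hδ', div_eq_mul_inv]) hτ ?_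
    rw [map_inv₀, map_prod]
    congr 1
    refine Finset.prod_congr rfl fun e he => ?_
    rw [map_sub, hTK _ e he, hres, hfixa]
  have hIs := hI δ hδ0 hfixδ _ hsecs
  have hIt := hI δ hδ0 hfixδ _ hsect
  intro σ hσ
  -- the lift
  obtain ⟨τ, hτσ, hτ⟩ : ∃ τ : κ ≃ₐ[E] κ, res τ = σ ∧ Ine V τ := by
    have hσE : ∀ z ∈ E, σ z = z := by
      intro z hz
      have h1 : E ≤ IntermediateField.fixedField (Subgroup.zpowers σ) := by
        rw [IntermediateField.adjoin_le_iff, Set.singleton_subset_iff]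
        rw [SetLike.mem_coe, IntermediateField.mem_fixedField_iff]
        intro f hf
        obtain ⟨n, rfl⟩ := Subgroup.mem_zpowers_iff.1 hf
        have h5 : σ ∈ MulAction.stabilizer (κ ≃ₐ[K] κ) a := hσa σ hσ
        exact (MulAction.stabilizer (κ ≃ₐ[K] κ) a).zpow_mem h5 n
      have h2 := h1 hz
      rw [IntermediateField.mem_fixedField_iff] at h2
      exact h2 _ (Subgroup.mem_zpowers _)
    refine ⟨AlgEquiv.ofRingEquiv (f := (σ : κ ≃+* κ)) (fun z => hσE z z.2), ?_, ?_⟩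
    · ext z
      rfl
    · exact hσ
  have h3 := eq_of_ine a_g2 hCov hℓV hO (Act.of_sec hsecs) (Act.of_sec hsect) (σ := τ)
    (hIs τ hτ) (hIt τ hτ)
  change s (res τ) = t (res τ) at h3
  rwa [hτσ] at h3

end Pool.Agent.K3h82.OP
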