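import Pool.Agent.K3h82.OP.Pt

/-!
# Sections which are locally given by a rational point
-/

set_option autoImplicit false
set_option linter.all false

open Polynomial FF Pool.Agent.Y157.PS IsDedekindDomain NumberField

namespace Pool.Agent.K3h82.OP

open Pool.Agent.K3h82.BT
open Pool.Agent.Y158.GR

section places

variable (K : Type) [Field K] [NumberField K]

/-- there is a place above every prime number -/
theorem exists_prime_place {p : ℕ} (hp : p.Prime) :
    ∃ v : HeightOneSpectrum (𝓞 K), (p : 𝓞 K) ∈ v.asIdeal := by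
  have h2 : ¬ IsUnit (p : 𝓞 K) := by
    intro h
    have h1 := (NumberField.isUnit_iff_norm (K := K) (x := (p : 𝓞 K))).1 h
    have e : ((p : 𝓞 K) : K) = algebraMap ℚ K p := by
      rw [map_natCast (algebraMap ℚ K)]
      exact map_natCast (algebraMap (𝓞 K) K) p
    rw [RingOfIntegers.coe_norm, e, Algebra.norm_algebraMap, abs_pow] at h1
    have h3 : (1 : ℚ) < |(p : ℚ)| := by
      rw [abs_of_nonneg (by positivity)]
      exact_mod_cast hp.one_lt
    have h4 := one_lt_pow₀ h3 (Module.finrank_pos (R := ℚ) (M := K)).ne'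
    rw [h1] at h4
    exact lt_irrefl _ h4
  obtain ⟨I, hI, h2I⟩ := exists_max_ideal_of_mem_nonunits h2
  have hI0 : I ≠ ⊥ := by
    rintro rfl
    rw [Ideal.mem_bot] at h2I
    have h3 : (p : 𝓞 K) ≠ 0 := Nat.cast_ne_zero.2 hp.ne_zero
    exact h3 h2I
  exact ⟨⟨I, hI.isPrime, hI0⟩, h2I⟩

theorem infinite_places : Infinite (HeightOneSpectrum (𝓞 K)) := by
  have h := fun p : Nat.Primes => exists_prime_place K p.2
  choose f hf using h
  refine Infinite.of_injective f fun p q hpq => ?_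
  by_contra hne
  have hcop : Nat.Coprime (p : ℕ) (q : ℕ) :=
    (Nat.coprime_primes p.2 q.2).2 fun h => hne (Subtype.ext h)
  have h1 := Nat.isCoprime_iff_coprime.2 hcop
  obtain ⟨u, w, huw⟩ := h1
  apply (f p).isPrime.ne_top
  rw [Ideal.eq_top_iff_one]
  have h2 : (1 : 𝓞 K) = (u : 𝓞 K) * ((p : ℕ) : 𝓞 K) + (w : 𝓞 K) * ((q : ℕ) : 𝓞 K) := by
    have h3 := congrArg (fun z : ℤ => (z : 𝓞 K)) huw
    push_cast at h3
    exact h3.symm
  rw [h2]
  refine add_mem (Ideal.mul_mem_left _ _ (hf p)) (Ideal.mul_mem_left _ _ ?_)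
  rw [hpq]
  exact hf q

/-- there is a place at which finitely many given nonzero elements are units -/
theorem exists_unit_place (A : Finset K) (hA : ∀ x ∈ A, x ≠ 0) :
    ∃ v : HeightOneSpectrum (𝓞 K), ∀ x ∈ A, v.valuation K x = 1 := by
  classical
  haveI := infinite_places K
  have hfin : (⋃ x ∈ A, (HeightOneSpectrum.Support (𝓞 K) x ∪
      HeightOneSpectrum.Support (𝓞 K) x⁻¹)).Finite := by
    refine Set.Finite.biUnion A.finite_toSet fun x _ => ?_
    exact (HeightOneSpectrum.Support.finite (R := 𝓞 K) x).union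
      (HeightOneSpectrum.Support.finite (R := 𝓞 K) x⁻¹)
  obtain ⟨v, hv⟩ := hfin.exists_notMem
  refine ⟨v, fun x hx => ?_⟩
  have h1 : v ∉ HeightOneSpectrum.Support (𝓞 K) x := fun h =>
    hv (Set.mem_biUnion (t := fun x => HeightOneSpectrum.Support (𝓞 K) x ∪
      HeightOneSpectrum.Support (𝓞 K) x⁻¹) hx (Or.inl h))
  have h2 : v ∉ HeightOneSpectrum.Support (𝓞 K) x⁻¹ := fun h =>
    hv (Set.mem_biUnion (t := fun x => HeightOneSpectrum.Support (𝓞 K) x ∪
      HeightOneSpectrum.Support (𝓞 K) x⁻¹) hx (Or.inr h))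
  have h3 : v.valuation K x ≤ 1 := not_lt.1 h1
  have h4 : v.valuation K x⁻¹ ≤ 1 := not_lt.1 h2
  rw [map_inv₀] at h4
  have h5 : v.valuation K x ≠ 0 := (Valuation.ne_zero_iff _).2 (hA x hx)
  exact le_antisymm h3 ((inv_le_one₀ (zero_lt_iff.2 h5)).1 h4)

end places

section main

variable {K κ : Type} [Field K] [NumberField K] [Field κ] [Algebra K κ] [IsAlgClosure K κ]
  {R M : Type} [Field R] [Field M] [Algebra κ R] [Algebra R M] [Algebra κ M]
  [IsScalarTower κ R M] {x' : R} {y' : M} {ℓ : ℕ} [hp : Fact ℓ.Prime]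

/-- sections in the coordinate `1 / (x - a)`, `a` rational -/
theorem sec_mobK {s : (κ ≃ₐ[K] κ) →* RingAut M}
    (hs : Sec K κ R M x' y' (1 : κ) s) {δ : κ} (hδ0 : δ ≠ 0) (a : K) (m : ℕ) :
    Sec K κ R M (x' - algebraMap κ R (algebraMap K κ a))⁻¹
      (algebraMap κ M δ * y' * algebraMap R M (x' - algebraMap κ R (algebraMap K κ a))⁻¹ ^ m)
      δ s := by
  haveI : IsAlgClosed κ := IsAlgClosure.isAlgClosed K
  haveI : CharZero κ := charZero_of_injective_algebraMap (algebraMap K κ).injective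
  have hsx := (act_mob (Act.of_sec hs) a).fixx
  have hsy : ∀ σ : κ ≃ₐ[K] κ, s σ y' = y' := by
    intro σ
    rw [hs.fixy, map_one σ, div_one, map_one, one_mul]
  refine ⟨hs.const, hsx, fun σ => ?_, hs.cont⟩
  rw [map_mul, map_mul, map_pow, hs.const, hsy, hsx, map_div₀]
  have hδM : algebraMap κ M δ ≠ 0 := (_root_.map_ne_zero _).2 hδ0
  field_simp

/-- the converse -/
theorem sec_unmob (hrat : RatF κ x') {s : (κ ≃ₐ[K] κ) →* RingAut M} {δ : κ} (hδ0 : δ ≠ 0)
    (a : K) (m : ℕ)
    (hs : Sec K κ R M (x' - algebraMap κ R (algebraMap K κ a))⁻¹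
      (algebraMap κ M δ * y' * algebraMap R M (x' - algebraMap κ R (algebraMap K κ a))⁻¹ ^ m)
      δ s) : Sec K κ R M x' y' (1 : κ) s := by
  have hxa : x' - algebraMap κ R (algebraMap K κ a) ≠ 0 := by
    intro h0
    apply hrat.trans
    rw [sub_eq_zero.1 h0]
    exact isAlgebraic_algebraMap _
  obtain ⟨t, ht⟩ : ∃ t : R, t = (x' - algebraMap κ R (algebraMap K κ a))⁻¹ := ⟨_, rfl⟩
  have ht0 : t ≠ 0 := by rw [ht]; exact inv_ne_zero hxa
  have htM : algebraMap R M t ≠ 0 := (_root_.map_ne_zero _).2 ht0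
  have hx' : x' = algebraMap κ R (algebraMap K κ a) + t⁻¹ := by rw [ht, inv_inv]; ring
  rw [← ht] at hs
  have hδM : algebraMap κ M δ ≠ 0 := (_root_.map_ne_zero _).2 hδ0
  refine ⟨hs.const, fun σ => ?_, fun σ => ?_, hs.cont⟩
  · rw [hx', map_add, map_inv₀, map_add, map_inv₀, hs.fixx,
      ← IsScalarTower.algebraMap_apply κ R M, hs.const, σ.commutes]
  · have h1 := hs.fixy σ
    have hσδ : algebraMap κ M (σ δ) ≠ 0 :=
      (_root_.map_ne_zero _).2 ((map_ne_zero_iff _ σ.injective).2 hδ0)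
    rw [map_mul, map_mul, map_pow, hs.const, hs.fixx, map_div₀] at h1
    rw [map_one σ, div_one, map_one, one_mul]
    have h2 : algebraMap κ M (σ δ) * algebraMap R M t ^ m ≠ 0 :=
      mul_ne_zero hσδ (pow_ne_zero _ htM)
    apply mul_left_cancel₀ h2
    have h3 : algebraMap κ M (σ δ) / algebraMap κ M δ *
        (algebraMap κ M δ * y' * algebraMap R M t ^ m) =
        algebraMap κ M (σ δ) * algebraMap R M t ^ m * y' := by
      field_simp
    rw [h3] at h1
    rw [← h1]
    ring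

/-- **a section which is locally given by a rational point is the section of this point** -/
theorem fix_pt {ζ : K} (hζ : IsPrimitiveRoot ζ ℓ) {B : Finset K} {T : Finset κ}
    (hBT : ∀ e : κ, e ∈ T ↔ ∃ b ∈ B, algebraMap K κ b = e)
    (hrat : RatF κ x') {d : K} (hd : d ≠ 0)
    (hC : AllCov ℓ κ R M x' y' T (algebraMap K κ d))
    {Lv C : Type} [Field Lv] [Field C] [Algebra K Lv] [Algebra Lv C] [Algebra K C]
    [IsScalarTower K Lv C] [CharZero Lv] [IsAlgClosure Lv C]
    (hinj : LocPow ℓ Lv (GoodAt ℓ B d)) (ι : κ →ₐ[K] C)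
    {s : (κ ≃ₐ[K] κ) →* RingAut M} (hs : Sec K κ R M x' y' (1 : κ) s) (W : Place κ M)
    (hD : ∀ σ, DecL Lv ι σ → Fixes W (s σ))
    (hW : ∀ a : K, (algebraMap R M (x' - algebraMap κ R (algebraMap K κ a))⁻¹) ∈ W.O →
      (∃ b : K, algebraMap R M (x' - algebraMap κ R (algebraMap K κ a))⁻¹ -
        algebraMap κ M (algebraMap K κ b) ∈ W.O.nonunits) ∧
      (y' * algebraMap R M (x' - algebraMap κ R (algebraMap K κ a))⁻¹ ^ mm ℓ T.card ∈ W.O →
      ∃ c : K, y' * algebraMap R M (x' - algebraMap κ R (algebraMap K κ a))⁻¹ ^ mm ℓ T.card -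
        algebraMap κ M (algebraMap K κ c) ∈ W.O.nonunits)) :
    ∀ σ, Fixes W (s σ) := by
  classical
  have hk : Algebra.IsAlgebraic K κ := IsAlgClosure.isAlgebraic
  haveI : IsAlgClosed κ := IsAlgClosure.isAlgClosed K
  haveI : CharZero κ := charZero_of_injective_algebraMap (algebraMap K κ).injective
  haveI : Normal K κ := IsAlgClosure.normal K κ
  have hℓ0 : ℓ ≠ 0 := hp.out.ne_zero
  have hconst : ∀ c : κ, algebraMap κ M c ∈ W.O := fun c => W.reg_const c
  -- a coordinate which is finite at `W`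
  obtain ⟨a, haB, haW⟩ : ∃ a : K, a ∉ B ∧
      algebraMap R M (x' - algebraMap κ R (algebraMap K κ a))⁻¹ ∈ W.O := by
    obtain ⟨a₁, ha₁⟩ := Infinite.exists_notMem_finset B
    obtain ⟨a₂, ha₂⟩ := Infinite.exists_notMem_finset (insert a₁ B)
    have ha₂B : a₂ ∉ B := fun h => ha₂ (Finset.mem_insert_of_mem h)
    have hne : a₂ ≠ a₁ := fun h => ha₂ (h ▸ Finset.mem_insert_self _ _)
    by_contra hcon
    push Not at hcon
    have key : ∀ a : K, a ∉ B → algebraMap R M x' - algebraMap κ M (algebraMap K κ a) ∈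
        W.O.nonunits := by
      intro a ha
      have h1 := hcon a ha
      rw [map_inv₀, map_sub, ← IsScalarTower.algebraMap_apply κ R M] at h1
      rw [nonunits_iff]
      refine ⟨?_, Or.inr h1⟩
      rcases W.O.mem_or_inv_mem (algebraMap R M x' - algebraMap κ M (algebraMap K κ a)) with h2 | h2
      · exact h2
      · exact absurd h2 h1
    have h3 := non_sub (key a₁ ha₁) (key a₂ ha₂B)
    have h4 : algebraMap R M x' - algebraMap κ M (algebraMap K κ a₁) -
        (algebraMap R M x' - algebraMap κ M (algebraMap K κ a₂)) =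
        algebraMap κ M (algebraMap K κ (a₂ - a₁)) := by
      rw [map_sub, map_sub]
      ring
    have h5 : algebraMap K κ (a₂ - a₁) ≠ 0 := (_root_.map_ne_zero _).2 (sub_ne_zero.2 hne)
    rw [h4, O_non_iff W ((_root_.map_ne_zero _).2 h5), W.ord_const h5] at h3
    exact lt_irrefl _ h3
  have haT : algebraMap K κ a ∉ T := by
    intro h
    obtain ⟨b, hb, hba⟩ := (hBT _).1 h
    exact haB ((algebraMap K κ).injective hba ▸ hb)
  have hP0 : ∏ e ∈ T, (algebraMap K κ a - e) ≠ 0 := by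
    rw [Finset.prod_ne_zero_iff]
    intro e he
    rw [sub_ne_zero]
    rintro rfl
    exact haT he
  have hdκ : algebraMap K κ d ≠ 0 := (_root_.map_ne_zero _).2 hd
  obtain ⟨δ, hδ'⟩ := IsAlgClosed.exists_pow_nat_eq
    (algebraMap K κ d / (∏ e ∈ T, (algebraMap K κ a - e))) hp.out.pos
  have hδ : δ ^ ℓ * (∏ e ∈ T, (algebraMap K κ a - e)) = algebraMap K κ d := by
    rw [hδ', div_mul_cancel₀ _ hP0]
  have hδ0 : δ ≠ 0 := by
    rintro rfl
    rw [zero_pow hℓ0, zero_mul] at hδ
    exact hdκ hδ.symm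
  have hCov := hC _ δ haT hδ
  have hsec := sec_mobK hs hδ0 a (mm ℓ T.card)
  obtain ⟨hb, hc⟩ := hW a haW
  obtain ⟨t, ht⟩ : ∃ t : R, t = (x' - algebraMap κ R (algebraMap K κ a))⁻¹ := ⟨_, rfl⟩
  obtain ⟨Y, hY⟩ : ∃ Y : M, Y = algebraMap κ M δ * y' * algebraMap R M t ^ mm ℓ T.card := ⟨_, rfl⟩
  have hCov' : Cov ℓ κ R M t (Bs ℓ T (algebraMap K κ a)) Y := by rw [ht, hY, ht]; exact hCov
  have hsec' : Sec K κ R M t Y δ s := by rw [ht, hY, ht]; exact hsec
  rw [← ht] at hb hc haW
  obtain ⟨b, hb⟩ := hb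
  have hbne : algebraMap R M t - algebraMap κ M (algebraMap K κ b) ≠ 0 := by
    intro h0
    have h2 : Transcendental κ (algebraMap R M t) :=
      (transcendental_algebraMap_iff (algebraMap R M).injective).2 hCov'.rat.trans
    apply h2
    rw [sub_eq_zero.1 h0]
    exact isAlgebraic_algebraMap _
  have hWb : 0 < W.ord (algebraMap R M t - algebraMap κ M (algebraMap K κ b)) := by
    rwa [← O_non_iff W hbne]
  have hpt : (∃ c : M ≃ₐ[R] M, Fixes W c ∧ c Y ≠ Y) ∨
      (algebraMap K κ b ∉ Bs ℓ T (algebraMap K κ a) ∧ ∃ β : κ, (∀ σ : κ ≃ₐ[K] κ, σ β = β) ∧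
        Y - algebraMap κ M (δ * β) ∈ W.O.nonunits) := by
    by_cases hbB : algebraMap K κ b ∈ Bs ℓ T (algebraMap K κ a)
    · left
      -- a good place
      obtain ⟨v, hv⟩ := exists_unit_place K
        (insert (ℓ : K) (((B ×ˢ B).filter (fun q => q.1 ≠ q.2)).image (fun q => q.1 - q.2) ∪
          B.image (fun e => e - a))) (by
        intro z hz
        rw [Finset.mem_insert, Finset.mem_union, Finset.mem_image, Finset.mem_image] at hz
        rcases hz with rfl | ⟨q, hq, rfl⟩ | ⟨e, he, rfl⟩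
        · exact Nat.cast_ne_zero.2 hℓ0
        · exact sub_ne_zero.2 (Finset.mem_filter.1 hq).2
        · rw [sub_ne_zero]
          rintro rfl
          exact haB he)
      have hℓv : (ℓ : 𝓞 K) ∉ v.asIdeal := by
        have h1 := hv (ℓ : K) (Finset.mem_insert_self _ _)
        rw [← map_natCast (algebraMap (𝓞 K) K) ℓ, v.valuation_of_algebraMap,
          v.intValuation_eq_one_iff] at h1
        exact h1
      obtain ⟨V, hV⟩ := exists_above (K := K) κ v
      have hgood : Good V (Bs ℓ T (algebraMap K κ a)) := by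
        refine good_Bs (fun e he e' he' hne => ?_) fun e he => ?_
        · obtain ⟨b₁, hb₁, rfl⟩ := (hBT _).1 he
          obtain ⟨b₂, hb₂, rfl⟩ := (hBT _).1 he'
          rw [← map_sub, hV.isU]
          refine hv _ (Finset.mem_insert_of_mem (Finset.mem_union_left _ (Finset.mem_image.2
            ⟨(b₁, b₂), Finset.mem_filter.2 ⟨Finset.mem_product.2 ⟨hb₁, hb₂⟩, ?_⟩, rfl⟩)))
          intro h
          exact hne (by rw [show b₁ = b₂ from h])
        · obtain ⟨b₁, hb₁, rfl⟩ := (hBT _).1 he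
          rw [← map_sub, hV.isU]
          exact hv _ (Finset.mem_insert_of_mem (Finset.mem_union_right _ (Finset.mem_image.2
            ⟨b₁, hb₁, rfl⟩)))
      obtain ⟨-, hrot, -⟩ := hV.wgt hℓv hCov' hgood
      exact exists_rot' hCov' hrot W hbB hWb
    · right
      refine ⟨hbB, ?_⟩
      have hYO := (ordx_of_notMem hCov' hbB hWb)
      have hδM : algebraMap κ M δ ≠ 0 := (_root_.map_ne_zero _).2 hδ0
      have hyY : y' * algebraMap R M t ^ mm ℓ T.card = algebraMap κ M δ⁻¹ * Y := by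
        rw [hY, map_inv₀]
        field_simp
      have hyO : y' * algebraMap R M t ^ mm ℓ T.card ∈ W.O := by
        rw [hyY]
        refine mul_mem (hconst _) ?_
        rw [O_iff W hYO.2, hYO.1]
      obtain ⟨c, hc'⟩ := hc hyO
      refine ⟨algebraMap K κ c, fun σ => σ.commutes c, ?_⟩
      have h1 : Y - algebraMap κ M (δ * algebraMap K κ c) = algebraMap κ M δ *
          (y' * algebraMap R M t ^ mm ℓ T.card - algebraMap κ M (algebraMap K κ c)) := by
        rw [hY, map_mul]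
        ring
      rw [h1]
      exact non_mul (hconst δ) hc'
  obtain ⟨u, hu, huW, hsu⟩ := exists_ptsec hCov' hδ0 hsec' (b := algebraMap K κ b)
    (fun σ => σ.commutes b) hWb hpt
  have hu' : Sec K κ R M x' y' (1 : κ) u := by
    refine sec_unmob hrat hδ0 a (mm ℓ T.card) ?_
    rw [← ht, ← hY]
    exact hu
  have h1 := det hζ hBT hrat hd hC hinj ι hs hu' fun σ hσ => hsu σ (hD σ hσ)
  intro σ
  rw [h1]
  exact huW σ

end main

end Pool.Agent.K3h82.OP
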