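import Pool.Agent.K3h82.OP.Glue
import Pool.Agent.K3h82.OP.RatPt
import Pool.Agent.K3h82.BT.RigK
import Pool.Agent.K3h82.FQ4.Ext4

/-!
# The theorems for sections of Galois groups of function fields
-/

set_option autoImplicit false
set_option linter.all false

open Polynomial FF Pool.Agent.Y157.PS Pool.Agent.TH954 IsDedekindDomain NumberField

namespace Pool.Agent.K3h82.OP

open Pool.Agent.K3h82.BT
open Pool.Agent.Y158.GR
open Pool.Agent.Y158.FQ (adjoin_pair_top)

section fin

variable {K κ : Type} [Field K] [Field κ] [Algebra K κ]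

open Classical in
/-- the image of a finite set -/
noncomputable def imT (κ : Type) [Field κ] [Algebra K κ] (B : Finset K) : Finset κ :=
  B.image (algebraMap K κ)

theorem mem_imT {B : Finset K} {e : κ} : e ∈ imT κ B ↔ ∃ b ∈ B, algebraMap K κ b = e := by
  classical
  unfold imT
  rw [Finset.mem_image]

theorem card_imT {B : Finset K} : (imT κ B).card = B.card := by
  classical
  unfold imT
  exact Finset.card_image_of_injective _ (algebraMap K κ).injective

theorem prod_imT {M : Type} [CommMonoid M] {B : Finset K} (f : κ → M) :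
    ∏ e ∈ imT κ B, f e = ∏ e ∈ B, f (algebraMap K κ e) := by
  classical
  unfold imT
  rw [Finset.prod_image fun a _ b _ h => (algebraMap K κ).injective h]

end fin

section val

variable {K N C : Type} [Field K] [Field N] [Field C] [Algebra K N] [Algebra K C]

theorem non_of_val {p : Plc K N C} {z : N} (hz : p.val z 0) : z ∈ p.W.nonunits := by
  rw [nonunits_iff]
  refine ⟨hz.mem, ?_⟩
  by_cases h0 : z = 0
  · exact Or.inl h0
  · right
    intro h1
    obtain ⟨c, hc1⟩ := Plc.val_of_mem h1
    have h2 := hz.mul hc1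
    rw [mul_inv_cancel₀ h0, zero_mul] at h2
    exact zero_ne_one (h2.unique Plc.val_one)

end val

section top

variable {K : Type} [Field K] [NumberField K] {F Ω : Type} [Field F] [Field Ω]
  [Algebra K F] [Algebra F Ω] [Algebra K Ω] [IsScalarTower K F Ω] [IsAlgClosed Ω]
  [Algebra.IsAlgebraic F Ω] {ℓ : ℕ} [hp : Fact ℓ.Prime] {ζ : K}
  {C Lv : Type} [Field C] [Field Lv] [Algebra Lv C] [Algebra K C] [Algebra K Lv]
  [IsScalarTower K Lv C] [CharZero Lv] [IsAlgClosure Lv C]

/-- **two sections which agree on one decomposition group are equal** -/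
theorem det₀ (hζ : IsPrimitiveRoot ζ ℓ) {B : Finset K} (hB : ℓ ∣ B.card ∨ ℓ ∣ B.card + 1)
    (h3 : 3 ≤ B.card + ninf ℓ B.card) {d : K} (hd : d ≠ 0)
    (hinj : LocPow ℓ Lv (GoodAt ℓ B d)) (x y : F) (hx : Transcendental K x)
    (hF : IntermediateField.adjoin K {x, y} = (⊤ : IntermediateField K F))
    (hxy : algebraMap K F d * y ^ ℓ = ∏ e ∈ B, (x - algebraMap K F e))
    (s t : GalSection K F (geomPro ℓ K F Ω) (algebraicClosure K Ω))
    (hs : ∀ z, ((s.j z : geomPro ℓ K F Ω) : Ω) = (z : Ω))
    (ht : ∀ z, ((t.j z : geomPro ℓ K F Ω) : Ω) = (z : Ω))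
    (ι : algebraicClosure K Ω →ₐ[K] C) (hD : ∀ σ, DecL Lv ι σ → s.s σ = t.s σ) :
    s.s = t.s := by
  classical
  have hac : IsAlgClosure K (algebraicClosure K Ω) := inferInstance
  obtain ⟨R, M, i1, i2, i3, i4, i5, i6, x', y', eqv, hrat, hCall, hc, hx', hy'⟩ :=
    glueT (Ω := Ω) (imT (algebraicClosure K Ω) B) (by rw [card_imT]; exact hB)
      (by rw [card_imT]; exact h3) x y hx hF hd (by
        rw [prod_imT]
        have h1 := congrArg (algebraMap F Ω) hxy
        rw [map_mul, map_pow, map_prod, ← IsScalarTower.algebraMap_apply] at h1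
        rw [h1]
        refine Finset.prod_congr rfl fun e _ => ?_
        rw [map_sub, ← IsScalarTower.algebraMap_apply]
        rfl)
  have hSec := fun (s : GalSection K F (geomPro ℓ K F Ω) (algebraicClosure K Ω))
      (hs : ∀ z, ((s.j z : geomPro ℓ K F Ω) : Ω) = (z : Ω)) =>
    sec_of (δ := (1 : algebraicClosure K Ω)) one_ne_zero hc hx' (by
      rw [hy']
      change _ = 1 * algebraMap F Ω y
      rw [one_mul]) s.s s.cont (compat_of s hs)
  have key := det hζ (fun e => mem_imT) hrat hd hCall hinj ι (hSec s hs) (hSec t ht) fun σ hσ => by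
    apply RingEquiv.ext
    intro z
    apply eqv.injective
    rw [conjSec_apply, conjSec_apply, hD σ hσ]
  ext σ z
  have h1 := conjSec_apply eqv s.s σ (eqv.symm z)
  have h2 := conjSec_apply eqv t.s σ (eqv.symm z)
  rw [key, h2, eqv.apply_symm_apply] at h1
  rw [h1]

/-- **a section which is locally given by a rational point is the section of this point** -/
theorem pt₀ (hζ : IsPrimitiveRoot ζ ℓ) {B : Finset K} (hB : ℓ ∣ B.card ∨ ℓ ∣ B.card + 1)
    (h3 : 3 ≤ B.card + ninf ℓ B.card) {d : K} (hd : d ≠ 0)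
    (hinj : LocPow ℓ Lv (GoodAt ℓ B d)) (x y : F) (hx : Transcendental K x)
    (hF : IntermediateField.adjoin K {x, y} = (⊤ : IntermediateField K F))
    (hxy : algebraMap K F d * y ^ ℓ = ∏ e ∈ B, (x - algebraMap K F e))
    (s : GalSection K F (geomPro ℓ K F Ω) (algebraicClosure K Ω))
    (hs : ∀ z, ((s.j z : geomPro ℓ K F Ω) : Ω) = (z : Ω)) (p : Plc K (geomPro ℓ K F Ω) C)
    (hpv : s.GivenBy Lv p)
    (hpt : ∀ f : F, algebraMap F (geomPro ℓ K F Ω) f ∈ p.W →
      ∃ c : K, p.val (algebraMap F (geomPro ℓ K F Ω) f) (algebraMap K C c)) :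
    ∀ σ z, s.s σ z ∈ p.W ↔ z ∈ p.W := by
  classical
  have hac : IsAlgClosure K (algebraicClosure K Ω) := inferInstance
  have hkb : IsAlgClosed (algebraicClosure K Ω) := hac.1
  have hch : CharZero (algebraicClosure K Ω) :=
    charZero_of_injective_algebraMap (algebraMap K (algebraicClosure K Ω)).injective
  have hkalg : Algebra.IsAlgebraic K (algebraicClosure K Ω) := inferInstance
  obtain ⟨R, M, i1, i2, i3, i4, i5, i6, x', y', eqv, hrat, hCall, hc, hx', hy'⟩ :=
    glueT (Ω := Ω) (imT (algebraicClosure K Ω) B) (by rw [card_imT]; exact hB)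
      (by rw [card_imT]; exact h3) x y hx hF hd (by
        rw [prod_imT]
        have h1 := congrArg (algebraMap F Ω) hxy
        rw [map_mul, map_pow, map_prod, ← IsScalarTower.algebraMap_apply] at h1
        rw [h1]
        refine Finset.prod_congr rfl fun e _ => ?_
        rw [map_sub, ← IsScalarTower.algebraMap_apply]
        rfl)
  have hSec := sec_of (δ := (1 : algebraicClosure K Ω)) one_ne_zero hc hx' (by
      rw [hy']
      change _ = 1 * algebraMap F Ω y
      rw [one_mul]) s.s s.cont (compat_of s hs)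
  obtain ⟨sA, hsA⟩ : ∃ sA, sA = conjSec eqv s.s := ⟨_, rfl⟩
  rw [← hsA] at hSec
  have hs' : ∀ σ z, eqv (sA σ z) = s.s σ (eqv z) := fun σ z => by
    rw [hsA]; exact conjSec_apply eqv s.s σ z
  have hcj : ∀ c : algebraicClosure K Ω, eqv (algebraMap (algebraicClosure K Ω) M c) = s.j c :=
    fun c => Subtype.ext ((hc c).trans (hs c).symm)
  have hx0 : eqv (algebraMap R M x') = algebraMap F (geomPro ℓ K F Ω) x := Subtype.ext hx'
  have hy0 : eqv y' = algebraMap F (geomPro ℓ K F Ω) y := Subtype.ext hy'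
  have hKF : ∀ c : K, algebraMap K (geomPro ℓ K F Ω) c =
      algebraMap F (geomPro ℓ K F Ω) (algebraMap K F c) := fun c =>
    Subtype.ext (IsScalarTower.algebraMap_apply K F Ω c)
  have hcK : ∀ c : K, eqv (algebraMap (algebraicClosure K Ω) M (algebraMap K _ c)) =
      algebraMap F (geomPro ℓ K F Ω) (algebraMap K F c) := fun c => by
    rw [hcj, s.j.commutes, hKF]
  have hmem : ∀ z : M, z ∈ p.W.comap (eqv : M →+* geomPro ℓ K F Ω) ↔ eqv z ∈ p.W :=
    fun z => Iff.rfl
  have hnon : ∀ z : M, z ∈ (p.W.comap (eqv : M →+* geomPro ℓ K F Ω)).nonunits ↔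
      eqv z ∈ p.W.nonunits := fun z => comap_non eqv p.W z
  -- values of functions
  have hval : ∀ f : F, algebraMap F (geomPro ℓ K F Ω) f ∈ p.W → ∃ c : K,
      algebraMap F (geomPro ℓ K F Ω) (f - algebraMap K F c) ∈ p.W.nonunits := by
    intro f hf
    obtain ⟨c, hc1⟩ := hpt f hf
    refine ⟨c, non_of_val ?_⟩
    have h1 := hc1.sub (Plc.val_alg (pl := p) c)
    rw [sub_self] at h1
    rw [map_sub, ← hKF]
    exact h1
  have hsubx : ∀ c : K, x - algebraMap K F c ≠ 0 := by
    intro c h0
    apply hx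
    rw [sub_eq_zero.1 h0]
    exact isAlgebraic_algebraMap c
  -- the coordinate
  obtain ⟨a, haB⟩ := Infinite.exists_notMem_finset B
  have haT : algebraMap K (algebraicClosure K Ω) a ∉ imT (algebraicClosure K Ω) B := by
    intro h
    obtain ⟨b, hb, hba⟩ := mem_imT.1 h
    exact haB ((algebraMap K (algebraicClosure K Ω)).injective hba ▸ hb)
  have hP0 : ∏ e ∈ imT (algebraicClosure K Ω) B,
      (algebraMap K (algebraicClosure K Ω) a - e) ≠ 0 := by
    rw [Finset.prod_ne_zero_iff]
    intro e he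
    rw [sub_ne_zero]
    rintro rfl
    exact haT he
  obtain ⟨δ, hδ'⟩ := IsAlgClosed.exists_pow_nat_eq
    (algebraMap K (algebraicClosure K Ω) d / (∏ e ∈ imT (algebraicClosure K Ω) B,
      (algebraMap K (algebraicClosure K Ω) a - e))) hp.out.pos
  have hC := hCall _ δ haT (by rw [hδ', div_mul_cancel₀ _ hP0])
  obtain ⟨W, hWO, -⟩ := hC.loc (p.W.comap (eqv : M →+* geomPro ℓ K F Ω)) (fun c => by
    rw [hmem, hcj]
    exact (iot_val s p c).mem) (by
    intro htop
    have hall : ∀ z, z ∈ p.W := fun z => by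
      have h1 : eqv.symm z ∈ p.W.comap (eqv : M →+* geomPro ℓ K F Ω) := by
        rw [htop]; trivial
      rwa [hmem, eqv.apply_symm_apply] at h1
    obtain ⟨c, hc1⟩ := hval x (hall _)
    rw [nonunits_iff] at hc1
    rcases hc1.2 with h2 | h2
    · exact hsubx c ((map_eq_zero _).1 h2)
    · exact h2 (hall _))
  have hact := Act.of_sec hSec
  have hfix := fix_pt hζ (fun e => mem_imT) hrat hd hCall hinj (p.iot s.j) hSec W
    (fun σ hσ => by
      refine fixes_of_O W (sA σ) (σ : _ ≃+* _) (fun b => hact.const σ b) fun z => ?_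
      rw [hWO, hmem, hmem, hs']
      exact given_mem hpv hσ _) (fun b hb => by
      have e1 : eqv (algebraMap R M (x' - algebraMap (algebraicClosure K Ω) R
          (algebraMap K (algebraicClosure K Ω) b))⁻¹) =
          algebraMap F (geomPro ℓ K F Ω) (x - algebraMap K F b)⁻¹ := by
        rw [map_inv₀, map_inv₀, map_sub, map_sub, ← IsScalarTower.algebraMap_apply, hx0, hcK,
          map_inv₀, map_sub]
      rw [hWO, hmem, e1] at hb
      refine ⟨?_, fun hY => ?_⟩
      · obtain ⟨c, hc1⟩ := hval _ hb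
        refine ⟨c, ?_⟩
        rw [hWO, hnon, map_sub eqv, e1, hcK, ← map_sub]
        exact hc1
      · have e2 : eqv (y' * algebraMap R M (x' - algebraMap (algebraicClosure K Ω) R
            (algebraMap K (algebraicClosure K Ω) b))⁻¹ ^ mm ℓ (imT (algebraicClosure K Ω) B).card) =
            algebraMap F (geomPro ℓ K F Ω)
              (y * (x - algebraMap K F b)⁻¹ ^ mm ℓ (imT (algebraicClosure K Ω) B).card) := by
          rw [map_mul, map_pow, e1, hy0, map_mul, map_pow]
        rw [hWO, hmem, e2] at hY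
        obtain ⟨c, hc1⟩ := hval _ hY
        refine ⟨c, ?_⟩
        rw [hWO, hnon, map_sub eqv, e2, hcK, ← map_sub]
        exact hc1)
  intro σ z
  have h3 := O_of_fixes W (sA σ) (hfix σ) (eqv.symm z)
  rw [hWO, hmem, hmem, hs', eqv.apply_symm_apply] at h3
  exact h3

end top

end Pool.Agent.K3h82.OP
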