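import Pool.Agent.K3h82.OP.Main

/-!
# The theorems for sections of quotients of Galois groups of larger function fields
-/

set_option autoImplicit false
set_option linter.all false

open Polynomial FF Pool.Agent.Y157.PS Pool.Agent.TH954 IsDedekindDomain NumberField

namespace Pool.Agent.K3h82.OP

open Pool.Agent.K3h82.BT
open Pool.Agent.Y158.GR
open Pool.Agent.Y158.FQ (adjoin_pair_top extSec extSec_apply)

section res

variable {K : Type} [Field K] [CharZero K] {F Ω B : Type} [Field F] [Field Ω] [Field B]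
  [Algebra K F] [Algebra F Ω] [Algebra K Ω] [Algebra K B] [IsScalarTower K F Ω] [IsAlgClosed Ω]
  [Algebra.IsAlgebraic F Ω] [IsAlgClosure K B]

/-- restriction of a section to a geometrically pro-`ℓ` extension -/
theorem res_with {ℓ : ℕ} [hp : Fact ℓ.Prime] {x : F} (hx : Transcendental K x)
    (hFx : Algebra.IsAlgebraic (IntermediateField.adjoin K {x}) F) (F₀ : IntermediateField K F)
    (hxF : x ∈ F₀) (N : IntermediateField F Ω) (hN : ∀ z ∈ geomPro ℓ K F₀ Ω, z ∈ N)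
    (s : GalSection K F N B) (eB : B ≃ₐ[K] algebraicClosure K Ω)
    (heB' : ∀ b, ((s.j b : N) : Ω) = ((eB b : algebraicClosure K Ω) : Ω)) :
    ∃ (s₀ : GalSection K F₀ (geomPro ℓ K F₀ Ω) (algebraicClosure K Ω)),
      (∀ z, ((s₀.j z : geomPro ℓ K F₀ Ω) : Ω) = (z : Ω)) ∧
      (∀ σ (z : N) (w : geomPro ℓ K F₀ Ω), (w : Ω) = (z : Ω) →
        ((s₀.s σ w : geomPro ℓ K F₀ Ω) : Ω) =
          ((s.s (AlgEquiv.autCongr eB.symm σ) z : N) : Ω)) ∧
      Algebra.IsAlgebraic F₀ Ω := by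
  haveI hFF : Algebra.IsAlgebraic F₀ F := alg_sub hFx F₀ one_ne_zero (by rw [pow_one]; exact hxF)
  haveI hFΩ : Algebra.IsAlgebraic F₀ Ω := Algebra.IsAlgebraic.trans F₀ F Ω
  haveI : IsAlgClosure F₀ Ω := ⟨inferInstance, inferInstance⟩
  obtain ⟨-, hst⟩ := a_inrt ℓ K F₀ Ω (⟨x, hxF⟩ : F₀) (trans_sub hx hxF) (alg_sub' hxF hFx)
  -- the restriction
  obtain ⟨Φ, hΦc, hΦ⟩ := Pool.Agent.Y674.PS.restr' (F₀ := F₀) (Ω₀ := Ω) (F := F) (Ω := Ω)
    (algebraMap F₀ F) (RingHom.id Ω) (fun a => rfl) (geomPro ℓ K F₀ Ω) N hN (fun σ z hz =>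
      ⟨σ z, hst (σ.restrictScalars F₀) z hz, rfl⟩)
  have hΦ' : ∀ (e : N ≃ₐ[F] N) (z : N) (w : geomPro ℓ K F₀ Ω), (w : Ω) = (z : Ω) →
      ((Φ e w : geomPro ℓ K F₀ Ω) : Ω) = ((e z : N) : Ω) := hΦ
  let j₀ : algebraicClosure K Ω →ₐ[K] geomPro ℓ K F₀ Ω :=
    { toFun := fun z => ⟨(z : Ω), const_geomPro ℓ K z⟩
      map_one' := rfl
      map_mul' := fun _ _ => rfl
      map_zero' := rfl
      map_add' := fun _ _ => rfl
      commutes' := fun c => rfl }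
  have hj₀ : ∀ z, ((j₀ z : geomPro ℓ K F₀ Ω) : Ω) = (z : Ω) := fun z => rfl
  let s₀ : GalSection K F₀ (geomPro ℓ K F₀ Ω) (algebraicClosure K Ω) :=
    { j := j₀
      s := (Φ.comp s.s).comp (AlgEquiv.autCongr eB.symm : _ →* _)
      cont := (hΦc.comp s.cont).comp (Pool.Agent.Y674.PS.conj_cont eB.symm)
      sec := by
        intro σ z
        apply Subtype.ext
        have h1 := hΦ' (s.s (AlgEquiv.autCongr eB.symm σ)) (s.j (eB.symm z)) (j₀ z) (by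
          rw [heB', eB.apply_symm_apply, hj₀])
        have h2 : (AlgEquiv.autCongr eB.symm σ) (eB.symm z) = eB.symm (σ z) := by
          change eB.symm (σ (eB (eB.symm z))) = _
          rw [eB.apply_symm_apply]
        rw [s.sec, h2, heB', eB.apply_symm_apply] at h1
        exact h1 }
  exact ⟨s₀, hj₀, fun σ z w h => hΦ' _ z w h, hFΩ⟩

end res

section main

variable {K : Type} [Field K] [NumberField K] {F Ω Bc : Type} [Field F] [Field Ω] [Field Bc]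
  [Algebra K F] [Algebra F Ω] [Algebra K Ω] [Algebra K Bc] [IsScalarTower K F Ω] [IsAlgClosed Ω]
  [Algebra.IsAlgebraic F Ω] [IsAlgClosure K Bc] {ℓ : ℕ} [hp : Fact ℓ.Prime] {ζ : K}
  {C Lv : Type} [Field C] [Field Lv] [Algebra Lv C] [Algebra K C] [Algebra K Lv]
  [IsScalarTower K Lv C] [CharZero Lv] [IsAlgClosure Lv C]

/-- **two sections which agree on one decomposition group are equal** -/
theorem detF (hζ : IsPrimitiveRoot ζ ℓ) {B : Finset K} (hB : ℓ ∣ B.card ∨ ℓ ∣ B.card + 1)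
    (h3 : 3 ≤ B.card + ninf ℓ B.card) {d : K} (hd : d ≠ 0)
    (hinj : LocPow ℓ Lv (GoodAt ℓ B d)) (x y : F) (hx : Transcendental K x)
    (hFx : Algebra.IsAlgebraic (IntermediateField.adjoin K {x}) F)
    (hxy : algebraMap K F d * y ^ ℓ = ∏ e ∈ B, (x - algebraMap K F e))
    (N : IntermediateField F Ω)
    (hN : ∀ z ∈ geomPro ℓ K (IntermediateField.adjoin K {x, y}) Ω, z ∈ N)
    (s t : GalSection K F N Bc) (hj : s.j = t.j) (ι : Bc →ₐ[K] C)
    (hD : ∀ σ, DecL Lv ι σ → ∀ z : N,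
      (z : Ω) ∈ geomPro ℓ K (IntermediateField.adjoin K {x, y}) Ω → s.s σ z = t.s σ z) :
    ∀ σ, ∀ z : N, (z : Ω) ∈ geomPro ℓ K (IntermediateField.adjoin K {x, y}) Ω →
      s.s σ z = t.s σ z := by
  classical
  obtain ⟨F₀, hF₀⟩ : ∃ F₀ : IntermediateField K F, F₀ = IntermediateField.adjoin K {x, y} :=
    ⟨_, rfl⟩
  have hxF : x ∈ F₀ := by rw [hF₀]; exact IntermediateField.subset_adjoin K _ (by simp)
  have hyF : y ∈ F₀ := by rw [hF₀]; exact IntermediateField.subset_adjoin K _ (by simp)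
  rw [← hF₀] at hN hD ⊢
  haveI : IsScalarTower K N Ω := IsScalarTower.of_algebraMap_eq fun _ => rfl
  obtain ⟨eB, heB⟩ := exists_eB (Ω := Ω) ((IsScalarTower.toAlgHom K N Ω).comp s.j)
  have heB' : ∀ b, ((s.j b : N) : Ω) = ((eB b : algebraicClosure K Ω) : Ω) := fun b => (heB b).symm
  obtain ⟨s₀, hj₀, hs₀, hFΩ⟩ := res_with (ℓ := ℓ) hx hFx F₀ hxF N hN s eB heB'
  obtain ⟨t₀, hi₀, ht₀, -⟩ := res_with (ℓ := ℓ) hx hFx F₀ hxF N hN t eB (by rw [← hj]; exact heB')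
  have htop := adjoin_pair_top hF₀ hxF hyF
  have hx0 : Transcendental K (⟨x, hxF⟩ : F₀) := trans_sub hx hxF
  have hxy0 : algebraMap K F₀ d * (⟨y, hyF⟩ : F₀) ^ ℓ =
      ∏ e ∈ B, ((⟨x, hxF⟩ : F₀) - algebraMap K F₀ e) := by
    apply (algebraMap F₀ F).injective
    rw [map_mul, map_pow, map_prod]
    simp only [map_sub]
    exact hxy
  have key := det₀ hζ hB h3 hd hinj (⟨x, hxF⟩ : F₀) ⟨y, hyF⟩ hx0 htop hxy0 s₀ t₀ hj₀ hi₀
    (ι.comp (eB.symm : algebraicClosure K Ω →ₐ[K] Bc)) (by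
    intro σ hσ
    ext w
    rw [hs₀ σ ⟨(w : Ω), hN _ w.2⟩ w rfl, ht₀ σ ⟨(w : Ω), hN _ w.2⟩ w rfl]
    refine congrArg Subtype.val (hD _ ?_ _ w.2)
    obtain ⟨τ, hτ⟩ := hσ
    refine ⟨τ, fun z => ?_⟩
    have h1 := hτ (eB z)
    change ι (eB.symm (σ (eB z))) = τ (ι (eB.symm (eB z))) at h1
    rw [eB.symm_apply_apply] at h1
    exact h1)
  intro σ z hz
  have h5 : AlgEquiv.autCongr eB.symm (AlgEquiv.autCongr eB σ) = σ := by
    ext b
    change eB.symm (eB (σ (eB.symm (eB b)))) = σ b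
    rw [eB.symm_apply_apply, eB.symm_apply_apply]
  apply Subtype.ext
  have h1 := hs₀ (AlgEquiv.autCongr eB σ) z ⟨(z : Ω), hz⟩ rfl
  have h2 := ht₀ (AlgEquiv.autCongr eB σ) z ⟨(z : Ω), hz⟩ rfl
  rw [h5] at h1 h2
  rw [← h1, ← h2, key]

/-- **a section which is locally given by a rational point is the section of this point** -/
theorem ptF (hζ : IsPrimitiveRoot ζ ℓ) {B : Finset K} (hB : ℓ ∣ B.card ∨ ℓ ∣ B.card + 1)
    (h3 : 3 ≤ B.card + ninf ℓ B.card) {d : K} (hd : d ≠ 0)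
    (hinj : LocPow ℓ Lv (GoodAt ℓ B d)) (x y : F) (hx : Transcendental K x)
    (hFx : Algebra.IsAlgebraic (IntermediateField.adjoin K {x}) F)
    (hxy : algebraMap K F d * y ^ ℓ = ∏ e ∈ B, (x - algebraMap K F e))
    (N : IntermediateField F Ω)
    (hN : ∀ z ∈ geomPro ℓ K (IntermediateField.adjoin K {x, y}) Ω, z ∈ N)
    (s : GalSection K F N Bc) (p : Plc K N C) (hpv : s.GivenBy Lv p)
    (hpt : ∀ f ∈ IntermediateField.adjoin K {x, y}, algebraMap F N f ∈ p.W →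
      ∃ c : K, p.val (algebraMap F N f) (algebraMap K C c)) :
    ∀ σ, ∀ z : N, (z : Ω) ∈ geomPro ℓ K (IntermediateField.adjoin K {x, y}) Ω →
      (s.s σ z ∈ p.W ↔ z ∈ p.W) := by
  classical
  obtain ⟨F₀, hF₀⟩ : ∃ F₀ : IntermediateField K F, F₀ = IntermediateField.adjoin K {x, y} :=
    ⟨_, rfl⟩
  have hxF : x ∈ F₀ := by rw [hF₀]; exact IntermediateField.subset_adjoin K _ (by simp)
  have hyF : y ∈ F₀ := by rw [hF₀]; exact IntermediateField.subset_adjoin K _ (by simp)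
  rw [← hF₀] at hN hpt ⊢
  obtain ⟨eB, s₀, p₀, hj₀, hpv₀, hs₀, hval, hmem, hFΩ⟩ :=
    res_sec (ℓ := ℓ) hx hFx F₀ hxF N hN s p hpv
  have htop := adjoin_pair_top hF₀ hxF hyF
  have hx0 : Transcendental K (⟨x, hxF⟩ : F₀) := trans_sub hx hxF
  have hxy0 : algebraMap K F₀ d * (⟨y, hyF⟩ : F₀) ^ ℓ =
      ∏ e ∈ B, ((⟨x, hxF⟩ : F₀) - algebraMap K F₀ e) := by
    apply (algebraMap F₀ F).injective
    rw [map_mul, map_pow, map_prod]
    simp only [map_sub]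
    exact hxy
  have key := pt₀ hζ hB h3 hd hinj (⟨x, hxF⟩ : F₀) ⟨y, hyF⟩ hx0 htop hxy0 s₀ hj₀ p₀ hpv₀ (by
    intro f hf
    obtain ⟨c, hc⟩ := hpt f f.2 ((hmem (algebraMap F N f) _ rfl).1 hf)
    exact ⟨c, (hval (algebraMap F N f) _ _ rfl).2 hc⟩)
  intro g z hz
  have h1 := key (AlgEquiv.autCongr eB g) ⟨(z : Ω), hz⟩
  have h2 := hmem z ⟨(z : Ω), hz⟩ rfl
  have h3 := hmem (s.s g z) (s₀.s (AlgEquiv.autCongr eB g) ⟨(z : Ω), hz⟩)
    (hs₀ g z ⟨(z : Ω), hz⟩ rfl)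
  rw [h2, h3] at h1
  exact h1

end main

end Pool.Agent.K3h82.OP
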