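import Pool.Agent.K3h82.OP.Main2

/-!
# The theorems for coordinates which are fixed by the section
-/

set_option autoImplicit false
set_option linter.all false

open Polynomial FF Pool.Agent.Y157.PS Pool.Agent.TH954 IsDedekindDomain NumberField

namespace Pool.Agent.K3h82.OP

open Pool.Agent.K3h82.BT Pool.Agent.K3h82.FQ4
open Pool.Agent.Y158.GR
open Pool.Agent.Y158.FQ (adjoin_pair_top extSec extSec_apply)

section ext

variable {k F Ω B : Type} [Field k] [Field F] [Field Ω] [Field B]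
  [Algebra k F] [Algebra F Ω] [Algebra k Ω] [IsScalarTower k F Ω]
  [Algebra k B] [Algebra.IsAlgebraic k B] [Algebra.IsAlgebraic F Ω]

/-- fixed elements can be adjoined to the base field of two sections -/
theorem exists_ext2 {N : IntermediateField F Ω} (s t : GalSection k F N B) (hj : s.j = t.j)
    (S : Set N) (hS : ∀ z ∈ S, ∀ g, s.s g z = z) (hT : ∀ z ∈ S, ∀ g, t.s g z = z) :
    ∃ (F' : Type) (_ : Field F') (_ : Algebra k F') (_ : Algebra F' Ω) (_ : IsScalarTower k F' Ω)
      (_ : Algebra.IsAlgebraic F' Ω) (N' : IntermediateField F' Ω) (e : N ≃+* N')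
      (s' t' : GalSection k F' N' B),
      (∀ z : N, ((e z : N') : Ω) = (z : Ω)) ∧ (∀ z ∈ S, ∃ r : F', algebraMap F' Ω r = (z : Ω)) ∧
      s'.j = t'.j ∧ (∀ g z, s'.s g (e z) = e (s.s g z)) ∧ (∀ g z, t'.s g (e z) = e (t.s g z)) ∧
      (∀ z, z ∈ N' ↔ z ∈ N) := by
  let F' : IntermediateField F Ω := IntermediateField.adjoin F ((fun z : N => (z : Ω)) '' S)
  have hF'N : F' ≤ N := by
    rw [IntermediateField.adjoin_le_iff]
    rintro _ ⟨z, -, rfl⟩
    exact z.2
  haveI hF'Ω : Algebra.IsAlgebraic F' Ω := Algebra.IsAlgebraic.tower_top (K := F) F'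
  letI ikF : Algebra k F' := ((algebraMap F F').comp (algebraMap k F)).toAlgebra
  haveI : IsScalarTower k F' Ω := IsScalarTower.of_algebraMap_eq fun c => by
    rw [IsScalarTower.algebraMap_apply k F Ω]
    rfl
  let N' : IntermediateField F' Ω := IntermediateField.extendScalars hF'N
  have hNN' : ∀ z, z ∈ N' ↔ z ∈ N := fun z => IntermediateField.mem_extendScalars hF'N
  let e : N ≃+* N' :=
    { toFun := fun z => ⟨(z : Ω), (hNN' _).2 z.2⟩
      invFun := fun z => ⟨(z : Ω), (hNN' _).1 z.2⟩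
      left_inv := fun z => rfl
      right_inv := fun z => rfl
      map_mul' := fun _ _ => rfl
      map_add' := fun _ _ => rfl }
  have he : ∀ z : N, ((e z : N') : Ω) = (z : Ω) := fun z => rfl
  have hkN : ∀ c : k, ((algebraMap k N c : N) : Ω) = algebraMap k Ω c := fun c => rfl
  have hKB : ∀ (s : GalSection k F N B) (c : k), ((s.j (algebraMap k B c) : N) : Ω) =
      algebraMap k Ω c := fun s c => by
    rw [s.j.commutes]
    exact hkN c
  have hfix : ∀ (s : GalSection k F N B) (hS : ∀ z ∈ S, ∀ g, s.s g z = z)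
      (r : F') (g : B ≃ₐ[k] B) (z : N), (z : Ω) = algebraMap F' Ω r →
      s.s (g.restrictScalars k) z = z := by
    intro s hS r g z hz
    let T : Subfield Ω := Subfield.map (algebraMap N Ω)
      (RingHom.eqLocusField ((s.s (g.restrictScalars k) : N ≃ₐ[F] N) : N →+* N) (RingHom.id N))
    have hT : ∀ t : N, s.s (g.restrictScalars k) t = t → (t : Ω) ∈ T := fun t ht => ⟨t, ht, rfl⟩
    have h1 : (r : Ω) ∈ T := by
      refine adjoin_le_sub (T := T) (fun q => ?_) (fun t ht => ?_) _ r.2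
      · exact hT (algebraMap F N q) ((s.s (g.restrictScalars k)).commutes q)
      · obtain ⟨w, hw, rfl⟩ := ht
        exact hT w (hS w hw _)
    obtain ⟨t, ht, htr⟩ := h1
    have h2 : t = z := Subtype.ext (htr.trans hz.symm)
    rw [← h2]
    exact ht
  refine ⟨F', inferInstance, ikF, inferInstance, inferInstance, hF'Ω, N', e,
    extSec e he s (hKB s) (hfix s hS), extSec e he t (hKB t) (hfix t hT), he, fun z hz =>
    ⟨⟨(z : Ω), IntermediateField.subset_adjoin F _ ⟨z, hz, rfl⟩⟩, rfl⟩, ?_,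
    fun g z => ?_, fun g z => ?_, hNN'⟩
  · apply AlgHom.ext
    intro b
    change e (s.j b) = e (t.j b)
    rw [hj]
  · rw [extSec_apply]
    rfl
  · rw [extSec_apply]
    rfl

end ext

section main

variable {K : Type} [Field K] [NumberField K] {F Ω Bc : Type} [Field F] [Field Ω] [Field Bc]
  [Algebra K F] [Algebra F Ω] [Algebra K Ω] [Algebra K Bc] [IsScalarTower K F Ω] [IsAlgClosed Ω]
  [Algebra.IsAlgebraic F Ω] [IsAlgClosure K Bc] {ℓ : ℕ} [hp : Fact ℓ.Prime] {ζ : K}
  {C Lv : Type} [Field C] [Field Lv] [Algebra Lv C] [Algebra K C] [Algebra K Lv]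
  [IsScalarTower K Lv C] [CharZero Lv] [IsAlgClosure Lv C]

/-- **two sections which agree on one decomposition group are equal** -/
theorem detN (hζ : IsPrimitiveRoot ζ ℓ) {B : Finset K} (hB : ℓ ∣ B.card ∨ ℓ ∣ B.card + 1)
    (h3 : 3 ≤ B.card + ninf ℓ B.card) {d : K} (hd : d ≠ 0)
    (hinj : LocPow ℓ Lv (GoodAt ℓ B d)) (N : IntermediateField F Ω) (x y : N)
    (hx : Transcendental K (x : Ω))
    (hΩ : Algebra.IsAlgebraic (IntermediateField.adjoin K {(x : Ω)}) Ω)
    (hxy : algebraMap K N d * y ^ ℓ = ∏ e ∈ B, (x - algebraMap K N e))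
    (hN : ∀ z ∈ geomPro ℓ K (IntermediateField.adjoin K {(x : Ω), (y : Ω)}) Ω, z ∈ N)
    (s t : GalSection K F N Bc) (hj : s.j = t.j) (hsx : ∀ σ, s.s σ x = x)
    (hsy : ∀ σ, s.s σ y = y) (htx : ∀ σ, t.s σ x = x) (hty : ∀ σ, t.s σ y = y) (ι : Bc →ₐ[K] C)
    (hD : ∀ σ, DecL Lv ι σ → ∀ z : N,
      (z : Ω) ∈ geomPro ℓ K (IntermediateField.adjoin K {(x : Ω), (y : Ω)}) Ω →
      s.s σ z = t.s σ z) :
    ∀ σ, ∀ z : N, (z : Ω) ∈ geomPro ℓ K (IntermediateField.adjoin K {(x : Ω), (y : Ω)}) Ω →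
      s.s σ z = t.s σ z := by
  haveI : Algebra.IsAlgebraic K Bc := IsAlgClosure.isAlgebraic
  obtain ⟨F', i1, i2, i3, i4, i5, N', e, s', t', he, hS, hj', hs, ht, hNN'⟩ :=
    exists_ext2 s t hj {x, y} (fun z hz g => by
      rcases hz with hz | hz
      · rw [hz]; exact hsx g
      · rw [Set.mem_singleton_iff] at hz
        rw [hz]; exact hsy g) (fun z hz g => by
      rcases hz with hz | hz
      · rw [hz]; exact htx g
      · rw [Set.mem_singleton_iff] at hz
        rw [hz]; exact hty g)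
  obtain ⟨x', hx'⟩ := hS x (by simp)
  obtain ⟨y', hy'⟩ := hS y (by simp)
  have hgeo : ∀ z : Ω, z ∈ geomPro ℓ K (IntermediateField.adjoin K {x', y'}) Ω ↔
      z ∈ geomPro ℓ K (IntermediateField.adjoin K {(x : Ω), (y : Ω)}) Ω :=
    Pool.Agent.Y158.FQ.geomPro_base (k := K) (K := K) (X := x') (Y := y')
        (u := (x : Ω)) (w := (y : Ω)) (c := 1) (c' := 1)
        (one_mem _) (one_mem _) one_ne_zero one_ne_zero (by rw [one_mul, hx'])
        (by rw [one_mul, hy'])
  have hxt : Transcendental K x' := by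
    intro h
    apply hx
    rw [← hx']
    exact h.algebraMap
  have hF'x : Algebra.IsAlgebraic (IntermediateField.adjoin K {x'}) F' :=
    alg_down (by rw [hx']; exact hΩ)
  have hxy' : algebraMap K F' d * y' ^ ℓ = ∏ e ∈ B, (x' - algebraMap K F' e) := by
    apply (algebraMap F' Ω).injective
    have h1 := congrArg (algebraMap N Ω) hxy
    rw [map_mul, map_pow, map_prod] at h1 ⊢
    simp only [map_sub, ← IsScalarTower.algebraMap_apply, hx', hy'] at h1 ⊢
    exact h1
  have key := detF hζ hB h3 hd hinj x' y' hxt hF'x hxy' N' (fun z hz =>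
    (hNN' z).2 (hN z ((hgeo z).1 hz))) s' t' hj' ι (fun σ hσ z hz => by
      have h0 : ((e.symm z : N) : Ω) = (z : Ω) := by
        rw [← he (e.symm z), e.apply_symm_apply]
      have h1 := hD σ hσ (e.symm z) (by
        rw [h0]
        exact (hgeo _).1 hz)
      rw [← e.apply_symm_apply z, hs, ht, h1])
  intro σ z hz
  have h1 := key σ (e z) ((hgeo _).2 (by rw [he]; exact hz))
  rw [hs, ht] at h1
  exact e.injective h1

/-- **a section which is locally given by a rational point is the section of this point** -/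
theorem ptN (hζ : IsPrimitiveRoot ζ ℓ) {B : Finset K} (hB : ℓ ∣ B.card ∨ ℓ ∣ B.card + 1)
    (h3 : 3 ≤ B.card + ninf ℓ B.card) {d : K} (hd : d ≠ 0)
    (hinj : LocPow ℓ Lv (GoodAt ℓ B d)) (N : IntermediateField F Ω) (x y : N)
    (hx : Transcendental K (x : Ω))
    (hΩ : Algebra.IsAlgebraic (IntermediateField.adjoin K {(x : Ω)}) Ω)
    (hxy : algebraMap K N d * y ^ ℓ = ∏ e ∈ B, (x - algebraMap K N e))
    (hN : ∀ z ∈ geomPro ℓ K (IntermediateField.adjoin K {(x : Ω), (y : Ω)}) Ω, z ∈ N)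
    (s : GalSection K F N Bc) (hsx : ∀ σ, s.s σ x = x) (hsy : ∀ σ, s.s σ y = y)
    (p : Plc K N C) (hpv : s.GivenBy Lv p)
    (hpt : ∀ f : N, (f : Ω) ∈ IntermediateField.adjoin K {(x : Ω), (y : Ω)} → f ∈ p.W →
      ∃ c : K, p.val f (algebraMap K C c)) :
    ∀ σ, ∀ z : N, (z : Ω) ∈ geomPro ℓ K (IntermediateField.adjoin K {(x : Ω), (y : Ω)}) Ω →
      (s.s σ z ∈ p.W ↔ z ∈ p.W) := by
  haveI : Algebra.IsAlgebraic K Bc := IsAlgClosure.isAlgebraic
  obtain ⟨F', i1, i2, i3, i4, i5, N', e, s', p', he, hS, hpv₁, hval, hmem, hs, hNN', -⟩ :=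
    exists_ext s p hpv {x, y} (fun z hz g => by
      rcases hz with hz | hz
      · rw [hz]; exact hsx g
      · rw [Set.mem_singleton_iff] at hz
        rw [hz]; exact hsy g)
  obtain ⟨x', hx'⟩ := hS x (by simp)
  obtain ⟨y', hy'⟩ := hS y (by simp)
  have hgeo : ∀ z : Ω, z ∈ geomPro ℓ K (IntermediateField.adjoin K {x', y'}) Ω ↔
      z ∈ geomPro ℓ K (IntermediateField.adjoin K {(x : Ω), (y : Ω)}) Ω :=
    Pool.Agent.Y158.FQ.geomPro_base (k := K) (K := K) (X := x') (Y := y')
        (u := (x : Ω)) (w := (y : Ω)) (c := 1) (c' := 1)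
        (one_mem _) (one_mem _) one_ne_zero one_ne_zero (by rw [one_mul, hx'])
        (by rw [one_mul, hy'])
  have hxt : Transcendental K x' := by
    intro h
    apply hx
    rw [← hx']
    exact h.algebraMap
  have hF'x : Algebra.IsAlgebraic (IntermediateField.adjoin K {x'}) F' :=
    alg_down (by rw [hx']; exact hΩ)
  have hxy' : algebraMap K F' d * y' ^ ℓ = ∏ e ∈ B, (x' - algebraMap K F' e) := by
    apply (algebraMap F' Ω).injective
    have h1 := congrArg (algebraMap N Ω) hxy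
    rw [map_mul, map_pow, map_prod] at h1 ⊢
    simp only [map_sub, ← IsScalarTower.algebraMap_apply, hx', hy'] at h1 ⊢
    exact h1
  have hadj : ∀ f ∈ IntermediateField.adjoin K {x', y'}, algebraMap F' Ω f ∈
      IntermediateField.adjoin K {(x : Ω), (y : Ω)} := by
    intro f hf
    have h1 : (IntermediateField.adjoin K {x', y'}).map (IsScalarTower.toAlgHom K F' Ω) =
        IntermediateField.adjoin K {(x : Ω), (y : Ω)} := by
      rw [IntermediateField.adjoin_map, Set.image_pair]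
      change IntermediateField.adjoin K {algebraMap F' Ω x', algebraMap F' Ω y'} = _
      rw [hx', hy']
    rw [← h1]
    exact ⟨f, hf, rfl⟩
  have key := ptF hζ hB h3 hd hinj x' y' hxt hF'x hxy' N' (fun z hz =>
    (hNN' z).2 (hN z ((hgeo z).1 hz))) s' p' hpv₁ (fun f hf hfW => by
      have h1 : e (e.symm (algebraMap F' N' f)) = algebraMap F' N' f := e.apply_symm_apply _
      rw [← h1] at hfW ⊢
      rw [hmem] at hfW
      have h0 : ((e.symm (algebraMap F' N' f) : N) : Ω) = algebraMap F' Ω f := by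
        rw [← he (e.symm _), e.apply_symm_apply]
        rfl
      obtain ⟨c, hc⟩ := hpt _ (by
        rw [h0]
        exact hadj f hf) hfW
      exact ⟨c, (hval _ _).2 hc⟩)
  intro σ z hz
  have h1 := key σ (e z) ((hgeo _).2 (by rw [he]; exact hz))
  rw [hs, hmem, hmem] at h1
  exact h1

end main

end Pool.Agent.K3h82.OP
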