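import Pool.Agent.K3h82.OP.Det
import Pool.Agent.Y31.PS.Common

/-!
# The section attached to a rational point
-/

set_option autoImplicit false
set_option linter.all false

open Polynomial FF Pool.Agent.Y157.PS

namespace Pool.Agent.K3h82.OP

open Pool.Agent.K3h82.BT
open Pool.Agent.Y158.GR

variable {ℓ : ℕ} [hℓ : Fact ℓ.Prime] {κ R M : Type} [Field κ] [IsAlgClosed κ] [CharZero κ]
  [Field R] [Field M] [Algebra κ R] [Algebra R M] [Algebra κ M] [IsScalarTower κ R M] {x : R}
  {B : Finset κ} {Y : M} {k : Type} [Field k] [Algebra k κ]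

/-- automorphisms which agree on the constants and on `x` agree on `κ(x)` -/
theorem eqR_of (hR : RatF κ x) {φ φ' : M ≃+* M} {τ : κ ≃+* κ}
    (h : ∀ c, φ (algebraMap κ M c) = algebraMap κ M (τ c))
    (h' : ∀ c, φ' (algebraMap κ M c) = algebraMap κ M (τ c))
    (hx : φ (algebraMap R M x) = algebraMap R M x)
    (hx' : φ' (algebraMap R M x) = algebraMap R M x) (z : R) :
    φ (algebraMap R M z) = φ' (algebraMap R M z) := by
  have hz : z ∈ IntermediateField.adjoin κ {x} := by rw [hR.gen]; trivial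
  induction hz using IntermediateField.adjoin_induction with
  | mem y hy =>
    rw [Set.mem_singleton_iff] at hy
    subst hy
    rw [hx, hx']
  | algebraMap c =>
    rw [← IsScalarTower.algebraMap_apply, h, h']
  | add a b _ _ ha hb => rw [map_add, map_add, map_add, ha, hb]
  | inv a _ ha => rw [map_inv₀, map_inv₀, map_inv₀, ha]
  | mul a b _ _ ha hb => rw [map_mul, map_mul, map_mul, ha, hb]

/-- a lift of `σ` which fixes the coordinates and the place `W` -/
structure GFix (W : Place κ M) (x : R) (Y : M) (δ : κ) (σ : κ ≃ₐ[k] κ) (φ : RingAut M) : Prop where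
  const : ∀ c, φ (algebraMap κ M c) = algebraMap κ M (σ c)
  fixx : φ (algebraMap R M x) = algebraMap R M x
  fixy : φ Y = algebraMap κ M (σ δ / δ) * Y
  fixW : Fixes W φ

theorem GFix.one {W : Place κ M} {δ : κ} (hδ : δ ≠ 0) :
    GFix W x Y δ (1 : κ ≃ₐ[k] κ) (1 : RingAut M) := by
  refine ⟨fun c => rfl, rfl, ?_, fun z => rfl⟩
  rw [AlgEquiv.one_apply, div_self hδ, map_one, one_mul]
  rfl

theorem GFix.mul {W : Place κ M} {δ : κ} (hδ : δ ≠ 0) {σ σ' : κ ≃ₐ[k] κ} {φ φ' : RingAut M}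
    (h : GFix W x Y δ σ φ) (h' : GFix W x Y δ σ' φ') :
    GFix W x Y δ (σ * σ') (φ * φ' : RingAut M) := by
  refine ⟨fun c => ?_, ?_, ?_, fun z => ?_⟩
  · change φ (φ' (algebraMap κ M c)) = _
    rw [h'.const, h.const]
    rfl
  · change φ (φ' (algebraMap R M x)) = _
    rw [h'.fixx, h.fixx]
  · change φ (φ' Y) = _
    rw [h'.fixy, map_mul, h.const, h.fixy, ← mul_assoc, ← map_mul, AlgEquiv.mul_apply, map_div₀]
    congr 2
    have h1 : σ δ ≠ 0 := (map_ne_zero_iff _ σ.injective).2 hδ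
    field_simp
  · change W.ord (φ (φ' z)) = _
    rw [h.fixW, h'.fixW]

/-- uniqueness of the lift -/
theorem GFix.uniq (hC : Cov ℓ κ R M x B Y) {W : Place κ M} {δ : κ} {σ : κ ≃ₐ[k] κ}
    {φ φ' : RingAut M} (h : GFix W x Y δ σ φ) (h' : GFix W x Y δ σ φ') : φ = φ' := by
  have e1 : ∀ z, φ' ((φ'⁻¹ : RingAut M) z) = z := fun z => φ'.apply_symm_apply z
  have e2 : ∀ z, (φ'⁻¹ : RingAut M) (φ' z) = z := fun z => φ'.symm_apply_apply z
  let γ : M ≃ₐ[R] M := AlgEquiv.ofRingEquiv (f := (φ'⁻¹ * φ : RingAut M)) (by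
    intro r
    change (φ'⁻¹ : RingAut M) (φ (algebraMap R M r)) = _
    rw [eqR_of hC.rat (τ := (σ : κ ≃+* κ)) h.const h'.const h.fixx h'.fixx r, e2])
  have hγ : ∀ z, γ z = (φ'⁻¹ : RingAut M) (φ z) := fun z => rfl
  have hγW : Fixes W γ := by
    intro z
    have h1 := h'.fixW ((φ'⁻¹ : RingAut M) (φ z))
    rw [e1, h.fixW] at h1
    rw [hγ, ← h1]
  have hγY : γ Y = Y := by rw [hγ, h.fixy, ← h'.fixy, e2]
  have h1 : γ = 1 := by
    by_contra h2
    exact (hC.fixed a_stab W γ hγW h2).1 hγY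
  ext z
  have h2 : γ z = z := by rw [h1]; rfl
  rw [hγ] at h2
  rw [← e1 (φ z), h2]

theorem ordx_of_notMem (hC : Cov ℓ κ R M x B Y) {W : Place κ M} {b : κ} (hb : b ∉ B)
    (hW : 0 < W.ord (algebraMap R M x - algebraMap κ M b)) : W.ord Y = 0 ∧ Y ≠ 0 := by
  have hℓ0 := hℓ.out.pos
  have h1 : ∀ e ∈ B, W.ord (algebraMap R M x - algebraMap κ M e) = 0 := by
    intro e he
    refine ord_sub_const hW ?_
    rintro rfl
    exact hb he
  have htr : Transcendental κ (algebraMap R M x) :=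
    (transcendental_algebraMap_iff (algebraMap R M).injective).2 hC.rat.trans
  have hne : ∀ e : κ, algebraMap R M x - algebraMap κ M e ≠ 0 := by
    intro e h0
    apply htr
    rw [sub_eq_zero.1 h0]
    exact isAlgebraic_algebraMap _
  have hord : ∀ T : Finset κ, T ⊆ B → W.ord (∏ e ∈ T, (algebraMap R M x - algebraMap κ M e)) = 0
      ∧ ∏ e ∈ T, (algebraMap R M x - algebraMap κ M e) ≠ 0 := by
    classical
    intro T
    induction T using Finset.induction_on with
    | empty => intro _; rw [Finset.prod_empty]; exact ⟨W.ord_one, one_ne_zero⟩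
    | insert a T ha ih =>
      intro hT
      obtain ⟨h3, h4⟩ := ih fun b hb => hT (Finset.mem_insert_of_mem hb)
      rw [Finset.prod_insert ha]
      refine ⟨?_, mul_ne_zero (hne a) h4⟩
      rw [W.ord_mul (hne a) h4, h3, h1 a (hT (Finset.mem_insert_self a T)), add_zero]
  obtain ⟨h3, h4⟩ := hord B (Finset.Subset.refl _)
  rw [← hC.eqn] at h3 h4
  have hY0 : Y ≠ 0 := by
    rintro rfl
    rw [zero_pow hℓ0.ne'] at h4
    exact h4 rfl
  refine ⟨?_, hY0⟩
  rw [W.ord_pow] at h3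
  rcases mul_eq_zero.1 h3 with h5 | h5
  · exfalso
    have : ℓ = 0 := by exact_mod_cast h5
    omega
  · exact h5

/-- existence of the lift -/
theorem GFix.exists (hC : Cov ℓ κ R M x B Y) {W : Place κ M} {δ : κ} (hδ : δ ≠ 0)
    {s : (κ ≃ₐ[k] κ) →* RingAut M} (hs : Sec k κ R M x Y δ s)
    {b : κ} (hb : ∀ σ : κ ≃ₐ[k] κ, σ b = b)
    (hW : 0 < W.ord (algebraMap R M x - algebraMap κ M b))
    (hpt : (∃ c : M ≃ₐ[R] M, Fixes W c ∧ c Y ≠ Y) ∨
      (b ∉ B ∧ ∃ β : κ, (∀ σ : κ ≃ₐ[k] κ, σ β = β) ∧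
        Y - algebraMap κ M (δ * β) ∈ W.O.nonunits)) (σ : κ ≃ₐ[k] κ) :
    ∃ (φ : RingAut M) (γ : M ≃ₐ[R] M), GFix W x Y δ σ φ ∧ γ Y = Y ∧
      (∀ z, s σ z ∈ W.O ↔ γ z ∈ W.O) ∧ ∀ z, φ (γ z) = s σ z := by
  classical
  haveI := hC.gal
  haveI : Normal R M := hC.gal.to_normal
  have hℓ0 := hℓ.out.pos
  let W' : Place κ M := Place.comapEquiv W (s σ) (σ : κ ≃+* κ) (fun c => hs.const σ c)
  have hW'o : ∀ z, W'.ord z = W.ord (s σ z) := fun z => rfl
  have hW' : 0 < W'.ord (algebraMap R M x - algebraMap κ M b) := by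
    rw [hW'o, map_sub, hs.fixx, hs.const, hb]
    exact hW
  have hW'O : ∀ z, z ∈ W'.O ↔ s σ z ∈ W.O := by
    intro z
    by_cases hz : z = 0
    · rw [hz, map_zero]
      exact ⟨fun _ => zero_mem _, fun _ => zero_mem _⟩
    · rw [O_iff _ hz, O_iff _ ((map_ne_zero_iff (s σ) (s σ).injective).2 hz), hW'o]
  obtain ⟨γ, hγ⟩ := a_conj R M W.O W'.O (trace_eq hC.rat b hW hW')
  have hY0 : Y ≠ 0 := by
    by_cases hbB : b ∈ B
    · have h1 := hC.ordY W hbB hW
      rintro rfl
      rw [W.ord_zero] at h1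
      exact zero_ne_one h1
    · exact (ordx_of_notMem hC hbB hW).2
  obtain ⟨ξ, hξ, hγY⟩ := hC.actY hY0 γ
  have hconst : ∀ (g : M ≃ₐ[R] M) (c : κ), g (algebraMap κ M c) = algebraMap κ M c := fun g c =>
    Pool.Agent.Y748.PS.gal_const g c
  -- adjust
  obtain ⟨γ', hγ'Y, hγ'⟩ : ∃ γ' : M ≃ₐ[R] M, γ' Y = Y ∧ ∀ z, z ∈ W'.O ↔ γ' z ∈ W.O := by
    rcases hpt with ⟨c, hcW, hcY⟩ | ⟨hbB, β, hβ, hYβ⟩
    · obtain ⟨η, hη, hcη⟩ := hC.actY hY0 c
      have hη1 : η ≠ 1 := by
        rintro rfl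
        rw [map_one, one_mul] at hcη
        exact hcY hcη
      have hprim : IsPrimitiveRoot η ℓ := by
        rw [IsPrimitiveRoot.iff_orderOf]
        exact orderOf_eq_prime hη hη1
      haveI : NeZero ℓ := ⟨hℓ0.ne'⟩
      obtain ⟨i, -, hi⟩ := hprim.eq_pow_of_pow_eq_one (ξ := ξ⁻¹) (by rw [inv_pow, hξ, inv_one])
      have hcn : ∀ n : ℕ, (c ^ n) Y = algebraMap κ M (η ^ n) * Y := by
        intro n
        induction n with
        | zero => rw [pow_zero, pow_zero, map_one, one_mul]; rfl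
        | succ n ih =>
          rw [pow_succ', AlgEquiv.mul_apply, ih, map_mul, hconst, hcη, pow_succ, map_mul]
          ring
      have hξ0 : ξ ≠ 0 := by
        rintro rfl
        rw [zero_pow hℓ0.ne'] at hξ
        exact zero_ne_one hξ
      refine ⟨c ^ i * γ, ?_, fun z => ?_⟩
      · rw [AlgEquiv.mul_apply, hγY, map_mul, hconst, hcn, hi, ← mul_assoc, ← map_mul,
          mul_inv_cancel₀ hξ0, map_one, one_mul]
      · rw [hγ, AlgEquiv.mul_apply]
        exact (O_of_fixes W ((c ^ i : M ≃ₐ[R] M) : M ≃+* M) (hcW.pow i) (γ z)).symm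
    · refine ⟨γ, ?_, hγ⟩
      have hYo := (ordx_of_notMem hC hbB hW).1
      have hδβ : δ * β ≠ 0 := by
        intro h0
        rw [h0, map_zero, sub_zero] at hYβ
        have h2 := (O_non_iff W hY0).1 hYβ
        omega
      -- the value of `Y` at `W'`
      have hnon : ∀ z, z ∈ W'.O.nonunits ↔ s σ z ∈ W.O.nonunits := by
        intro z
        rw [nonunits_iff, nonunits_iff, hW'O, hW'O, map_inv₀]
        rw [map_eq_zero_iff (s σ) (s σ).injective]
      have hnonγ : ∀ z, z ∈ W'.O.nonunits ↔ γ z ∈ W.O.nonunits := by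
        intro z
        rw [nonunits_iff, nonunits_iff, hγ, hγ, map_inv₀]
        rw [map_eq_zero_iff γ γ.injective]
      have h1 : Y - algebraMap κ M (δ * β) ∈ W'.O.nonunits := by
        rw [hnon, map_sub, hs.fixy, hs.const, map_mul σ, hβ]
        have h2 : algebraMap κ M (σ δ / δ) * Y - algebraMap κ M (σ δ * β) =
            algebraMap κ M (σ δ / δ) * (Y - algebraMap κ M (δ * β)) := by
          have h3 : algebraMap κ M (σ δ * β) = algebraMap κ M (σ δ / δ) *
              algebraMap κ M (δ * β) := by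
            rw [← map_mul]
            congr 1
            field_simp
          rw [h3]
          ring
        rw [h2]
        exact non_mul (W.reg_const _) hYβ
      rw [hnonγ, map_sub, hγY, hconst] at h1
      have h2 := non_mul (W.reg_const ξ) hYβ
      have h3 := non_sub h2 h1
      have h4 : algebraMap κ M ξ * (Y - algebraMap κ M (δ * β)) -
          (algebraMap κ M ξ * Y - algebraMap κ M (δ * β)) =
          algebraMap κ M ((1 - ξ) * (δ * β)) := by
        simp only [map_mul, map_sub, map_one]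
        ring
      rw [h4] at h3
      have h5 : (1 - ξ) * (δ * β) = 0 := by
        by_contra hne
        rw [O_non_iff W ((_root_.map_ne_zero _).2 hne), W.ord_const hne] at h3
        exact lt_irrefl _ h3
      have h6 : ξ = 1 := by
        rcases mul_eq_zero.1 h5 with h7 | h7
        · linear_combination -h7
        · exact absurd h7 hδβ
      rw [hγY, h6, map_one, one_mul]
  have e1 : ∀ z, γ' (γ'⁻¹ z) = z := fun z => γ'.apply_symm_apply z
  have e2 : ∀ z, γ'⁻¹ (γ' z) = z := fun z => γ'.symm_apply_apply z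
  have hγ'inv : γ'⁻¹ Y = Y := by
    conv_lhs => rw [← hγ'Y]
    exact e2 Y
  refine ⟨(s σ : RingAut M) * ((γ'⁻¹ : M ≃ₐ[R] M) : M ≃+* M), γ', ⟨fun c => ?_, ?_, ?_, ?_⟩,
    hγ'Y, fun z => ?_, fun z => ?_⟩
  · change s σ (γ'⁻¹ (algebraMap κ M c)) = _
    rw [hconst, hs.const]
  · change s σ (γ'⁻¹ (algebraMap R M x)) = _
    rw [AlgEquiv.commutes, hs.fixx]
  · change s σ (γ'⁻¹ Y) = _
    rw [hγ'inv, hs.fixy]
  · refine fixes_of_O W _ (σ : κ ≃+* κ) (fun c => ?_) fun z => ?_
    · change s σ (γ'⁻¹ (algebraMap κ M c)) = _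
      rw [hconst, hs.const]
      rfl
    · change s σ (γ'⁻¹ z) ∈ W.O ↔ _
      rw [← hW'O, hγ', e1]
  · rw [← hW'O, hγ']
  · change s σ (γ'⁻¹ (γ' z)) = _
    rw [e2]

/-- continuity on finite sets -/
theorem cont_finset {s : (κ ≃ₐ[k] κ) →* RingAut M}
    (hs : ∀ z : M, ∃ E : IntermediateField k κ, FiniteDimensional k E ∧
      ∀ σ ∈ E.fixingSubgroup, s σ z = z) (S : Finset M) :
    ∃ E : IntermediateField k κ, FiniteDimensional k E ∧
      ∀ σ ∈ E.fixingSubgroup, ∀ z ∈ S, s σ z = z := by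
  classical
  induction S using Finset.induction_on with
  | empty => exact ⟨⊥, inferInstance, fun σ _ z hz => absurd hz (Finset.notMem_empty z)⟩
  | insert a S ha ih =>
    obtain ⟨E1, h1, h1'⟩ := ih
    obtain ⟨E2, h2, h2'⟩ := hs a
    haveI := h1
    haveI := h2
    refine ⟨E1 ⊔ E2, inferInstance, fun σ hσ z hz => ?_⟩
    rw [IntermediateField.mem_fixingSubgroup_iff] at hσ
    rcases Finset.mem_insert.1 hz with rfl | hz
    · exact h2' σ (by
        rw [IntermediateField.mem_fixingSubgroup_iff]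
        exact fun y hy => hσ y ((le_sup_right : E2 ≤ _) hy))
    · exact h1' σ (by
        rw [IntermediateField.mem_fixingSubgroup_iff]
        exact fun y hy => hσ y ((le_sup_left : E1 ≤ _) hy)) z hz

/-- **the section attached to a rational point** -/
theorem exists_ptsec (hC : Cov ℓ κ R M x B Y) {W : Place κ M} {δ : κ} (hδ : δ ≠ 0)
    {s : (κ ≃ₐ[k] κ) →* RingAut M} (hs : Sec k κ R M x Y δ s)
    {b : κ} (hb : ∀ σ : κ ≃ₐ[k] κ, σ b = b)
    (hW : 0 < W.ord (algebraMap R M x - algebraMap κ M b))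
    (hpt : (∃ c : M ≃ₐ[R] M, Fixes W c ∧ c Y ≠ Y) ∨
      (b ∉ B ∧ ∃ β : κ, (∀ σ : κ ≃ₐ[k] κ, σ β = β) ∧
        Y - algebraMap κ M (δ * β) ∈ W.O.nonunits)) :
    ∃ t : (κ ≃ₐ[k] κ) →* RingAut M, Sec k κ R M x Y δ t ∧ (∀ σ, Fixes W (t σ)) ∧
      ∀ σ, Fixes W (s σ) → s σ = t σ := by
  classical
  haveI := hC.gal
  have key := fun σ => GFix.exists hC hδ hs hb hW hpt σ
  choose φ γ hφ hγY hγ hφγ using key
  let t : (κ ≃ₐ[k] κ) →* RingAut M :=
    { toFun := φ
      map_one' := (hφ 1).uniq hC (GFix.one hδ)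
      map_mul' := fun σ σ' => (hφ (σ * σ')).uniq hC ((hφ σ).mul hδ (hφ σ')) }
  have ht : ∀ σ, t σ = φ σ := fun σ => rfl
  refine ⟨t, ⟨fun σ c => (hφ σ).const c, fun σ => (hφ σ).fixx, fun σ => (hφ σ).fixy, ?_⟩,
    fun σ => (hφ σ).fixW, fun σ hσ => ?_⟩
  · intro z
    obtain ⟨N, hN, hmem⟩ := Pool.Agent.Y31.PS.exists_lev hC.pow {Y, z}
    have hYN : Y ∈ N := hmem Y (by simp)
    have hzN : z ∈ N := hmem z (by simp)
    haveI := hN.fin
    haveI := hN.gal
    -- a nontrivial element of the group of `N` moves the place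
    have hmove : ∀ g : N ≃ₐ[R] N, ∃ u : N, g ≠ 1 → ((g ⟨Y, hYN⟩ : N) : M) = Y →
        ¬ (((g u : N) : M) ∈ W.O ↔ (u : M) ∈ W.O) := by
      intro g
      by_cases hg : g ≠ 1 ∧ ((g ⟨Y, hYN⟩ : N) : M) = Y
      · by_contra hcon
        push Not at hcon
        have h1 : ∀ u : N, ((g u : N) : M) ∈ W.O ↔ (u : M) ∈ W.O := fun u => (hcon u).2.2
        -- extend `g`
        let g' : M ≃ₐ[R] M := g.liftNormal M
        have hg' : ∀ u : N, g' (u : M) = ((g u : N) : M) := fun u =>
          AlgEquiv.liftNormal_commutes g M u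
        let U : Place κ M := Place.comapEquiv W (g' : M ≃+* M) (RingEquiv.refl κ)
          (fun c => Pool.Agent.Y748.PS.gal_const g' c)
        have hU : ∀ u, U.ord u = W.ord (g' u) := fun u => rfl
        obtain ⟨hr1, -, hr3⟩ := a_res ℓ κ R M x B Y hC N hN.fin hYN
        have hag : ∀ u : N, W.ord (u : M) = U.ord (u : M) := by
          obtain ⟨w, hw⟩ := hr1 W
          obtain ⟨w', hw'⟩ := hr1 U
          have hww : w = w' := by
            apply Place.ext_O
            ext u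
            by_cases hu : u = 0
            · rw [hu]
              exact ⟨fun _ => zero_mem _, fun _ => zero_mem _⟩
            · have huM : (u : M) ≠ 0 := fun h => hu (Subtype.ext h)
              have hgu : g' (u : M) ≠ 0 := (map_ne_zero_iff g' g'.injective).2 huM
              rw [O_iff _ hu, O_iff _ hu, ← hw, ← hw', hU, ← O_iff W huM, ← O_iff W hgu, hg']
              exact (h1 u).symm
          intro u
          rw [hw, hw', hww]
        obtain ⟨η, hη1, hη2⟩ := hr3 W U hag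
        -- `g' η⁻¹` fixes `W` and `Y`
        have hfix : Fixes W (η⁻¹ * g' : M ≃ₐ[R] M) ∨ True := Or.inr trivial
        have hηinv : ∀ u, η⁻¹ (η u) = u := fun u => η.symm_apply_apply u
        have hηinv' : ∀ u, η (η⁻¹ u) = u := fun u => η.apply_symm_apply u
        have h5 : Fixes W (g' * η⁻¹ : M ≃ₐ[R] M) := by
          intro u
          have h6 := hη2 (η⁻¹ u)
          rw [hηinv', hU] at h6
          exact h6
        have h7 : (g' * η⁻¹ : M ≃ₐ[R] M) Y = Y := by
          have h8 : η⁻¹ Y = Y := by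
            conv_lhs => rw [← hη1 Y hYN]
            exact hηinv Y
          rw [AlgEquiv.mul_apply, h8, hg' ⟨Y, hYN⟩, hg.2]
        have h9 : (g' * η⁻¹ : M ≃ₐ[R] M) = 1 := by
          by_contra h10
          exact (hC.fixed a_stab W _ h5 h10).1 h7
        apply hg.1
        ext u
        have h11 : (g' * η⁻¹ : M ≃ₐ[R] M) (u : M) = u := by rw [h9]; rfl
        have h12 : η⁻¹ (u : M) = u := by
          conv_lhs => rw [← hη1 u u.2]
          exact hηinv u
        rw [AlgEquiv.mul_apply, h12, hg'] at h11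
        rw [h11]
        rfl
      · refine ⟨0, fun h1 h2 => absurd ⟨h1, h2⟩ hg⟩
    choose u hu using hmove
    obtain ⟨E, hE, hE'⟩ := cont_finset hs.cont
      (insert z (Finset.univ.image fun g : N ≃ₐ[R] N => ((u g : N) : M)))
    refine ⟨E, hE, fun σ hσ => ?_⟩
    have hsz : s σ z = z := hE' σ hσ z (Finset.mem_insert_self _ _)
    have hsu : ∀ g, s σ ((u g : N) : M) = (u g : N) := fun g => hE' σ hσ _
      (Finset.mem_insert_of_mem (Finset.mem_image_of_mem _ (Finset.mem_univ g)))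
    -- the restriction of `γ σ`
    let g : N ≃ₐ[R] N := (γ σ).restrictNormal N
    have hg : ∀ w : N, ((g w : N) : M) = γ σ (w : M) := fun w =>
      AlgEquiv.restrictNormal_commutes (γ σ) N w
    have hg1 : g = 1 := by
      by_contra hne
      refine hu g hne ?_ ?_
      · rw [hg]
        exact hγY σ
      · rw [hg, ← hγ σ, hsu]
    have hγz : γ σ z = z := by
      have h1 := hg ⟨z, hzN⟩
      rw [hg1] at h1
      exact h1.symm
    rw [ht]
    have h2 := hφγ σ z
    rw [hγz, hsz] at h2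
    exact h2
  · have h1 : GFix W x Y δ σ (s σ) := ⟨fun c => hs.const σ c, hs.fixx σ, hs.fixy σ, hσ⟩
    exact h1.uniq hC (hφ σ)

end Pool.Agent.K3h82.OP
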